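import Pool.Agent.Hhelper97.Gam.Psi

/-!
# The action on `U = {p : Fin 3 → ℂ | 0 < Im p₀}` and the change of variables
-/

set_option autoImplicit false

open Matrix MeasureTheory UpperHalfPlane Topology
open scoped MatrixGroups ContDiff

namespace Pool.Agent.Hhelper97.Gam

/-- The model space. -/
abbrev V : Type := Fin 3 → ℂ

/-- The domain of the charts. -/
def U : Set V := {p | 0 < (p 0).im}

lemma isOpen_U : IsOpen U := isOpen_lt continuous_const (by fun_prop)

/-- The automorphy factor `c z + d`. -/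
noncomputable def J (g : SL(2, ℝ)) (z : ℂ) : ℂ := (g 1 0 : ℂ) * z + g 1 1

lemma J_ne_zero (g : SL(2, ℝ)) {z : ℂ} (hz : 0 < z.im) : J g z ≠ 0 := den_ne_zero g hz

lemma mob_eq (g : SL(2, ℝ)) (z : ℂ) : mob g z = ((g 0 0 : ℂ) * z + g 0 1) / J g z := rfl

lemma det_one (g : SL(2, ℝ)) : (g 0 0 : ℂ) * g 1 1 - g 0 1 * g 1 0 = 1 := by
  have h := g.2
  rw [Matrix.det_fin_two] at h
  exact_mod_cast h

lemma J_mul (g h : SL(2, ℝ)) {z : ℂ} (hz : 0 < z.im) : J (g * h) z = J g (mob h z) * J h z := by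
  have hJ := J_ne_zero h hz
  rw [mob_eq, J, J, Matrix.SpecialLinearGroup.coe_mul, Matrix.mul_apply, Matrix.mul_apply,
    Fin.sum_univ_two, Fin.sum_univ_two]
  field_simp
  rw [J]
  push_cast
  ring

lemma J_one (z : ℂ) : J 1 z = 1 := by simp [J]

/-- The action. -/
noncomputable def act (g : SL(2, ℝ)) (p : V) : V :=
  ![mob g (p 0), p 1 / J g (p 0), p 2 / J g (p 0)]

lemma act_mem_U (g : SL(2, ℝ)) {p : V} (hp : p ∈ U) : act g p ∈ U := mob_im_pos g hp

lemma act_mul (g h : SL(2, ℝ)) {p : V} (hp : p ∈ U) : act (g * h) p = act g (act h p) := by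
  have hp : 0 < (p 0).im := hp
  have h1 := J_ne_zero h hp
  have h2 := J_ne_zero g (mob_im_pos h hp)
  ext i
  fin_cases i
  · simp [act, mob_mul g h hp]
  · simp [act, J_mul g h hp]
    field_simp
  · simp [act, J_mul g h hp]
    field_simp

lemma act_one (p : V) : act 1 p = p := by
  ext i
  fin_cases i <;> simp [act, mob_one, J_one]

lemma act_inv_act (g : SL(2, ℝ)) {p : V} (hp : p ∈ U) : act g⁻¹ (act g p) = p := by
  rw [← act_mul _ _ hp, inv_mul_cancel, act_one]

lemma act_act_inv (g : SL(2, ℝ)) {p : V} (hp : p ∈ U) : act g (act g⁻¹ p) = p := by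
  rw [← act_mul _ _ hp, mul_inv_cancel, act_one]

lemma act_image (g : SL(2, ℝ)) : act g '' U = U := by
  ext p
  constructor
  · rintro ⟨q, hq, rfl⟩
    exact act_mem_U g hq
  · intro hp
    exact ⟨act g⁻¹ p, act_mem_U _ hp, act_act_inv g hp⟩

lemma act_injOn (g : SL(2, ℝ)) : Set.InjOn (act g) U := by
  intro p hp q hq h
  rw [← act_inv_act g hp, h, act_inv_act g hq]

/-- The Jacobian matrix. -/
noncomputable def jac (g : SL(2, ℝ)) (p : V) : Matrix (Fin 3) (Fin 3) ℂ :=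
  !![1 / J g (p 0) ^ 2, 0, 0;
     -(g 1 0 : ℂ) * p 1 / J g (p 0) ^ 2, 1 / J g (p 0), 0;
     -(g 1 0 : ℂ) * p 2 / J g (p 0) ^ 2, 0, 1 / J g (p 0)]

lemma det_jac (g : SL(2, ℝ)) (p : V) : (jac g p).det = 1 / J g (p 0) ^ 4 := by
  rw [jac, Matrix.det_fin_three]
  simp
  by_cases h : J g (p 0) = 0
  · simp [h]
  · field_simp

lemma hasDerivAt_J (g : SL(2, ℝ)) (z : ℂ) : HasDerivAt (J g) (g 1 0 : ℂ) z := by
  have h : HasDerivAt (fun z : ℂ => (g 1 0 : ℂ) * z + g 1 1) ((g 1 0 : ℂ) * 1) z :=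
    ((hasDerivAt_id z).const_mul (g 1 0 : ℂ)).add_const (g 1 1 : ℂ)
  rw [mul_one] at h
  exact h

lemma hasDerivAt_mob (g : SL(2, ℝ)) {z : ℂ} (hz : 0 < z.im) :
    HasDerivAt (mob g) (1 / J g z ^ 2) z := by
  have h1 : HasDerivAt (fun z : ℂ => (g 0 0 : ℂ) * z + g 0 1) ((g 0 0 : ℂ) * 1) z :=
    ((hasDerivAt_id z).const_mul (g 0 0 : ℂ)).add_const (g 0 1 : ℂ)
  have h2 := h1.div (hasDerivAt_J g z) (J_ne_zero g hz)
  have hd := det_one g
  have e : 1 / J g z ^ 2 = ((g 0 0 : ℂ) * 1 * J g z -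
      ((g 0 0 : ℂ) * z + g 0 1) * (g 1 0 : ℂ)) / J g z ^ 2 := by
    congr 1
    rw [J]
    linear_combination -hd
  rw [e]
  exact h2

/-- The derivative of `act g`. -/
noncomputable def dact (g : SL(2, ℝ)) (p : V) : V →L[ℂ] V :=
  (Matrix.toLin' (jac g p)).toContinuousLinearMap

lemma hasFDerivAt_act (g : SL(2, ℝ)) {p : V} (hp : p ∈ U) :
    HasFDerivAt (act g) (dact g p) p := by
  have hp : 0 < (p 0).im := hp
  have hJ := J_ne_zero g hp
  rw [hasFDerivAt_pi']
  have h0 : HasFDerivAt (fun q : V => q 0)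
      (ContinuousLinearMap.proj (R := ℂ) (φ := fun _ : Fin 3 => ℂ) 0) p := hasFDerivAt_apply 0 p
  have hm := (hasDerivAt_mob g hp).hasFDerivAt.comp p h0
  have hj := ((hasDerivAt_J g (p 0)).inv hJ).hasFDerivAt.comp p h0
  intro i
  fin_cases i
  · refine hm.congr_fderiv ?_
    ext v
    simp [dact, jac, Matrix.toLin'_apply, Matrix.mulVec, dotProduct, Fin.sum_univ_three]
    ring
  · have h1 : HasFDerivAt (fun q : V => q 1)
      (ContinuousLinearMap.proj (R := ℂ) (φ := fun _ : Fin 3 => ℂ) 1) p := hasFDerivAt_apply 1 p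
    have := h1.mul hj
    refine this.congr_fderiv ?_
    ext v
    simp [dact, jac, Matrix.toLin'_apply, Matrix.mulVec, dotProduct, Fin.sum_univ_three]
    field_simp
  · have h1 : HasFDerivAt (fun q : V => q 2)
      (ContinuousLinearMap.proj (R := ℂ) (φ := fun _ : Fin 3 => ℂ) 2) p := hasFDerivAt_apply 2 p
    have := h1.mul hj
    refine this.congr_fderiv ?_
    ext v
    simp [dact, jac, Matrix.toLin'_apply, Matrix.mulVec, dotProduct, Fin.sum_univ_three]
    field_simp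

lemma det_dact_real (g : SL(2, ℝ)) (p : V) :
    |((dact g p).restrictScalars ℝ).det| = ‖J g (p 0)‖⁻¹ ^ 8 := by
  have h : ((dact g p).restrictScalars ℝ).det = Algebra.norm ℝ (dact g p : V →ₗ[ℂ] V).det :=
    LinearMap.det_restrictScalars
  rw [h, Algebra.norm_complex_apply, Complex.normSq_eq_norm_sq]
  have h2 : (dact g p : V →ₗ[ℂ] V).det = 1 / J g (p 0) ^ 4 := by
    rw [← det_jac, ← LinearMap.det_toLin']
    rfl
  rw [h2, norm_div, norm_pow, norm_one, abs_of_nonneg (by positivity)]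
  ring

lemma continuousOn_act (g : SL(2, ℝ)) : ContinuousOn (act g) U :=
  fun _ hp => (hasFDerivAt_act g hp).continuousAt.continuousWithinAt

/-- Change of variables. -/
theorem integral_act {E : Type*} [NormedAddCommGroup E] [NormedSpace ℝ E] (g : SL(2, ℝ))
    (F : V → E) : ∫ p in U, F p = ∫ p in U, (‖J g (p 0)‖⁻¹ ^ 8) • F (act g p) := by
  have h := integral_image_eq_integral_abs_det_fderiv_smul volume isOpen_U.measurableSet
    (fun p hp => ((hasFDerivAt_act g hp).restrictScalars ℝ).hasFDerivWithinAt) (act_injOn g) F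
  rw [act_image] at h
  rw [h]
  refine setIntegral_congr_fun isOpen_U.measurableSet fun p _ => ?_
  simp only [det_dact_real]

end Pool.Agent.Hhelper97.Gam
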