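import Pool.Agent.Hhelper97.Gam.Gamma

/-!
# Cocompactness
-/

set_option autoImplicit false

open Matrix MeasureTheory UpperHalfPlane
open scoped MatrixGroups

namespace Pool.Agent.Hhelper97.Gam

/-- The matrix of `v ↦ g * mat v` in coordinates. -/
noncomputable def bigMat (p q r s : ℝ) : Matrix (Fin 4) (Fin 4) ℝ :=
  !![p, -q, p * √3, -(q * √3);
     q, p, -(q * √3), -(p * √3);
     r, -s, r * √3, -(s * √3);
     s, r, -(s * √3), -(r * √3)]

lemma det_bigMat (p q r s : ℝ) (h : p * s - q * r = 1) : (bigMat p q r s).det = -12 := by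
  have h3 := sq3
  have : (bigMat p q r s).det = -4 * (√3 * √3) * (p * s - q * r) ^ 2 := by
    simp only [bigMat, Matrix.det_succ_row_zero, Fin.sum_univ_succ, Matrix.of_apply,
      Matrix.submatrix_apply, Fin.succAbove, Matrix.cons_val', Matrix.cons_val_zero,
      Matrix.cons_val_succ, Matrix.cons_val_fin_one]
    simp
    linear_combination (8 * p * r * s * q - 4 * p ^ 2 * s ^ 2 - 4 * r ^ 2 * q ^ 2) * h3
  rw [h3, h] at this
  rw [this]; norm_num

lemma exists_small (g : SL(2, ℝ)) : ∃ v : Fin 4 → ℤ, v ≠ 0 ∧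
    ∀ i j, |((g : Matrix (Fin 2) (Fin 2) ℝ) * matZ v) i j| < 2 := by
  have hdet : g 0 0 * g 1 1 - g 0 1 * g 1 0 = 1 := by
    have := g.2
    rwa [Matrix.det_fin_two] at this
  set A := bigMat (g 0 0) (g 0 1) (g 1 0) (g 1 1) with hA
  have hdA : A.det = -12 := det_bigMat _ _ _ _ hdet
  set b := Pi.basisFun ℝ (Fin 4)
  set f : (Fin 4 → ℝ) →ₗ[ℝ] (Fin 4 → ℝ) := Matrix.toLin' A with hf
  set s : Set (Fin 4 → ℝ) := f ⁻¹' (Set.univ.pi fun _ => Set.Ioo (-2 : ℝ) 2) with hs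
  have hfdet : LinearMap.det f = -12 := by rw [hf, LinearMap.det_toLin', hdA]
  have hfund := ZSpan.isAddFundamentalDomain' b (volume : Measure (Fin 4 → ℝ))
  have hcount : Countable (Submodule.span ℤ (Set.range b)).toAddSubgroup :=
    inferInstanceAs (Countable (Submodule.span ℤ (Set.range b)))
  have hvolF : volume (ZSpan.fundamentalDomain b) = 1 := by
    rw [ZSpan.fundamentalDomain_pi_basisFun, Real.volume_pi_Ico]
    simp
  have hvols : volume s = ENNReal.ofReal (64 / 3) := by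
    rw [hs, Measure.addHaar_preimage_linearMap _ (by rw [hfdet]; norm_num), hfdet,
      Real.volume_pi_Ioo]
    simp only [Finset.prod_const, Finset.card_univ, Fintype.card_fin]
    rw [← ENNReal.ofReal_pow (by norm_num), ← ENNReal.ofReal_mul (by positivity)]
    congr 1
    rw [abs_of_neg (by norm_num)]
    norm_num
  obtain ⟨x, hx0, hx⟩ := exists_ne_zero_mem_lattice_of_measure_mul_two_pow_lt_measure
    (μ := volume) (s := s) hfund (by
      intro x hx
      rw [hs, Set.mem_preimage, map_neg, Set.mem_univ_pi] at *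
      intro i
      obtain ⟨h1, h2⟩ := hx i
      exact ⟨by simp; linarith, by simp; linarith⟩)
      ((convex_pi fun i _ => convex_Ioo _ _).linear_preimage f) (by
        rw [hvolF, hvols, one_mul]
        have : (2 : ENNReal) ^ Module.finrank ℝ (Fin 4 → ℝ) = ENNReal.ofReal 16 := by
          rw [Module.finrank_fin_fun]
          norm_num
        rw [this]
        exact (ENNReal.ofReal_lt_ofReal_iff (by norm_num)).2 (by norm_num))
  obtain ⟨x, hxL⟩ := x
  have hint : ∀ i, ∃ n : ℤ, x i = n := by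
    have := (Module.Basis.mem_span_iff_repr_mem ℤ b x).1 hxL
    intro i
    obtain ⟨n, hn⟩ := this i
    exact ⟨n, by simpa [b] using hn.symm⟩
  choose v hv using hint
  refine ⟨v, ?_, ?_⟩
  · rintro rfl
    apply hx0
    ext i
    simp [hv]
  · rw [hs, Set.mem_preimage, Set.mem_univ_pi] at hx
    have hx' : ∀ i, |f x i| < 2 := fun i => abs_lt.2 (hx i)
    have h0 := hx' 0
    have h1 := hx' 1
    have h2 := hx' 2
    have h3 := hx' 3
    simp only [hf, hA, bigMat, Matrix.toLin'_apply, Matrix.mulVec, dotProduct,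
      Fin.sum_univ_four, hv] at h0 h1 h2 h3
    simp at h0 h1 h2 h3
    intro i j
    fin_cases i <;> fin_cases j <;> simp [matZ, mat, Matrix.mul_apply]
    · convert h0 using 2; ring
    · convert h1 using 2; ring
    · convert h2 using 2; ring
    · convert h3 using 2; ring

lemma nrd_bound (g : SL(2, ℝ)) (v : Fin 4 → ℤ)
    (h : ∀ i j, |((g : Matrix (Fin 2) (Fin 2) ℝ) * matZ v) i j| < 2) : |nrd v| ≤ 7 := by
  have hdet : ((g : Matrix (Fin 2) (Fin 2) ℝ) * matZ v).det = nrd v := by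
    rw [Matrix.det_mul, g.2, one_mul, det_matZ]
  rw [Matrix.det_fin_two] at hdet
  set M := (g : Matrix (Fin 2) (Fin 2) ℝ) * matZ v
  have h1 : |(nrd v : ℝ)| < 8 := by
    rw [← hdet]
    calc |M 0 0 * M 1 1 - M 0 1 * M 1 0| ≤ |M 0 0 * M 1 1| + |M 0 1 * M 1 0| := abs_sub _ _
      _ < 2 * 2 + 2 * 2 := by
        rw [abs_mul, abs_mul]
        exact add_lt_add (mul_lt_mul'' (h _ _) (h _ _) (abs_nonneg _) (abs_nonneg _))
          (mul_lt_mul'' (h _ _) (h _ _) (abs_nonneg _) (abs_nonneg _))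
      _ = 8 := by norm_num
  have h2 : |nrd v| < 8 := by exact_mod_cast h1
  omega

lemma matZ_smul (m : ℤ) (w : Fin 4 → ℤ) : matZ (fun i => m * w i) = (m : ℝ) • matZ w := by
  ext i j
  fin_cases i <;> fin_cases j <;> simp [matZ, mat] <;> ring

lemma same_class {u v : Fin 4 → ℤ} {m : ℤ} (hm0 : m ≠ 0) (hm : m ∣ 420) (hu : nrd u = m)
    (hv : nrd v = m) (hc : ∀ i, (1260 : ℤ) ∣ u i - v i) :
    ∃ γ ∈ Grp, matZ u = (γ : Matrix (Fin 2) (Fin 2) ℝ) * matZ v := by
  obtain ⟨k, hk⟩ := hm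
  choose d hd using hc
  have hu' : ∀ i, u i = v i + 3 * (m * k) * d i := by
    intro i
    have := hd i
    have hk' : m * k = 420 := hk.symm
    rw [hk']
    linarith
  let w : Fin 4 → ℤ := ![1 + 3 * (k * (d 0 * v 0 + d 1 * v 1 - 3 * d 2 * v 2 - 3 * d 3 * v 3)),
    3 * (k * (-(d 0 * v 1) + d 1 * v 0 + 3 * d 2 * v 3 - 3 * d 3 * v 2)),
    3 * (k * (-(d 0 * v 2) + d 2 * v 0 + d 1 * v 3 - d 3 * v 1)),
    3 * (k * (-(d 0 * v 3) + d 3 * v 0 - d 1 * v 2 + d 2 * v 1))]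
  have hw : CongOne w := by
    refine ⟨?_, ?_, ?_, ?_⟩
    · simp [w]
    · simp [w]
    · simp [w]
    · simp [w]
  have hmul : mulZ u (conjZ v) = fun i => m * w i := by
    rw [nrd] at hv
    ext i
    fin_cases i
    · simp [mulZ, conjZ, w, hu']
      linear_combination hv
    · simp [mulZ, conjZ, w, hu']
      ring
    · simp [mulZ, conjZ, w, hu']
      ring
    · simp [mulZ, conjZ, w, hu']
      ring
  have hmR : (m : ℝ) ≠ 0 := by exact_mod_cast hm0
  have e1 : matZ u * matZ (conjZ v) = (m : ℝ) • matZ w := by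
    rw [matZ_mul, hmul, matZ_smul]
  have e2 : matZ (conjZ v) * matZ v = (m : ℝ) • (1 : Matrix (Fin 2) (Fin 2) ℝ) := by
    rw [matZ_conj, Matrix.adjugate_mul, det_matZ, hv]
  have e3 : matZ u = matZ w * matZ v := by
    have : (m : ℝ) • matZ u = (m : ℝ) • (matZ w * matZ v) := by
      rw [← Matrix.smul_mul, ← e1, Matrix.mul_assoc, e2, Matrix.mul_smul, Matrix.mul_one]
    exact smul_right_injective _ hmR this
  have hdet : (matZ w).det = 1 := by
    have := congrArg Matrix.det e3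
    rw [Matrix.det_mul, det_matZ, det_matZ v, hu, hv] at this
    have h2 : ((matZ w).det - 1) * (m : ℝ) = 0 := by linarith
    have h3 := (mul_eq_zero.1 h2).resolve_right hmR
    linarith
  exact ⟨⟨matZ w, hdet⟩, ⟨w, hw, rfl⟩, e3⟩

lemma dvd_420 {m : ℤ} (h0 : m ≠ 0) (h : |m| ≤ 7) : m ∣ 420 := by
  obtain ⟨h1, h2⟩ := abs_le.1 h
  interval_cases m <;> first | omega | decide

theorem exists_bdd : ∃ C : ℝ, ∀ g : SL(2, ℝ), ∃ γ ∈ Grp, ∀ i j, |(g * γ : SL(2, ℝ)) i j| ≤ C := by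
  classical
  let S := {v : Fin 4 → ℤ // v ≠ 0 ∧ |nrd v| ≤ 7}
  let φ : S → (Fin 4 → ZMod 1260) × Set.Icc (-7 : ℤ) 7 :=
    fun v => (fun i => ((v.1 i : ℤ) : ZMod 1260), ⟨nrd v.1, abs_le.1 v.2.2⟩)
  let rep : Set.range φ → S := fun x => x.2.choose
  have hrep : ∀ x, φ (rep x) = x.1 := fun x => x.2.choose_spec
  let B : Set.range φ → ℝ := fun x => 2 * ∑ a, ∑ b, |((matZ (rep x).1)⁻¹) a b|
  obtain ⟨C, hC⟩ := (Set.finite_range B).bddAbove
  refine ⟨C, fun g => ?_⟩
  obtain ⟨v, hv0, hv⟩ := exists_small g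
  have hn := nrd_bound g v hv
  let V : S := ⟨v, hv0, hn⟩
  let x : Set.range φ := ⟨φ V, V, rfl⟩
  have hx : φ (rep x) = φ V := hrep x
  have h1 : nrd (rep x).1 = nrd v := congrArg (fun y => (y.2 : ℤ)) hx
  have h2 : ∀ i, (1260 : ℤ) ∣ v i - (rep x).1 i := by
    intro i
    have := congrFun (congrArg Prod.fst hx) i
    exact_mod_cast (ZMod.intCast_eq_intCast_iff_dvd_sub _ _ _).1 this
  have hm0 : nrd v ≠ 0 := nrd_ne_zero hv0
  obtain ⟨γ, hγ, hvγ⟩ := same_class hm0 (dvd_420 hm0 hn) rfl h1 h2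
  refine ⟨γ, hγ, fun i j => ?_⟩
  refine le_trans ?_ (hC ⟨x, rfl⟩)
  set N := (matZ (rep x).1)⁻¹
  have hunit : IsUnit (matZ (rep x).1).det := by
    rw [det_matZ, h1]
    exact (by exact_mod_cast hm0 : (nrd v : ℝ) ≠ 0).isUnit
  have hprod : ((g * γ : SL(2, ℝ)) : Matrix (Fin 2) (Fin 2) ℝ) =
      ((g : Matrix (Fin 2) (Fin 2) ℝ) * matZ v) * N := by
    rw [hvγ, Matrix.SpecialLinearGroup.coe_mul, Matrix.mul_assoc, Matrix.mul_assoc,
      Matrix.mul_nonsing_inv _ hunit, Matrix.mul_one]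
  rw [hprod, Matrix.mul_apply, Fin.sum_univ_two]
  have hs : |N 0 j| + |N 1 j| ≤ ∑ a, ∑ b, |N a b| := by
    rw [Fin.sum_univ_two]
    exact add_le_add
      (Finset.single_le_sum (f := fun b => |N 0 b|) (fun _ _ => abs_nonneg _) (Finset.mem_univ j))
      (Finset.single_le_sum (f := fun b => |N 1 b|) (fun _ _ => abs_nonneg _) (Finset.mem_univ j))
  set M := (g : Matrix (Fin 2) (Fin 2) ℝ) * matZ v
  calc |M i 0 * N 0 j + M i 1 * N 1 j| ≤ |M i 0 * N 0 j| + |M i 1 * N 1 j| := abs_add_le _ _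
    _ ≤ 2 * |N 0 j| + 2 * |N 1 j| := by
      rw [abs_mul, abs_mul]
      exact add_le_add (mul_le_mul_of_nonneg_right (hv _ _).le (abs_nonneg _))
        (mul_le_mul_of_nonneg_right (hv _ _).le (abs_nonneg _))
    _ ≤ 2 * ∑ a, ∑ b, |N a b| := by linarith

/-- `Γ` acts cocompactly on the upper half plane. -/
theorem cocompact : ∃ K : Set ℍ, IsCompact K ∧ ∀ τ : ℍ, ∃ γ ∈ Grp, γ • τ ∈ K := by
  obtain ⟨C, hC⟩ := exists_bdd
  have hK : IsCompact {k : SL(2, ℝ) | ∀ i j, |k i j| ≤ C} := by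
    let : SeminormedAddCommGroup (Matrix (Fin 2) (Fin 2) ℝ) := Matrix.seminormedAddCommGroup
    have : ProperSpace (Matrix (Fin 2) (Fin 2) ℝ) := pi_properSpace
    have : IsCompact {m : Matrix (Fin 2) (Fin 2) ℝ | ∀ i j, |m i j| ≤ C} := by
      convert! ProperSpace.isCompact_closedBall (0 : Matrix (Fin 2) (Fin 2) ℝ) C
      simp only [Fin.forall_fin_two, Fin.isValue, Metric.closedBall, dist_zero_right,
        Matrix.norm_def, pi_norm_le_iff_of_nonempty, Real.norm_eq_abs]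
    exact Matrix.SpecialLinearGroup.isClosedEmbedding_val.isCompact_preimage this
  refine ⟨(fun k : SL(2, ℝ) => k • UpperHalfPlane.I) '' {k : SL(2, ℝ) | ∀ i j, |k i j| ≤ C},
    hK.image (by fun_prop), fun τ => ?_⟩
  set g := τ.toSL2R
  obtain ⟨γ, hγ, hb⟩ := hC g⁻¹
  refine ⟨γ⁻¹, Grp.inv_mem hγ, γ⁻¹ * g, ?_, ?_⟩
  · have : γ⁻¹ * g = (g⁻¹ * γ)⁻¹ := by group
    intro i j
    rw [this, Matrix.SpecialLinearGroup.coe_inv, Matrix.adjugate_fin_two]
    fin_cases i <;> fin_cases j <;> simp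
    · exact hb 1 1
    · exact hb 0 1
    · exact hb 1 0
    · exact hb 0 0
  · show (γ⁻¹ * g) • UpperHalfPlane.I = γ⁻¹ • τ
    rw [mul_smul, UpperHalfPlane.toSL2R_smul_I]

end Pool.Agent.Hhelper97.Gam
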