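import Pool.Agent.Hhelper97.Gam.Stokes

/-!
# The cut-off and the general Stokes lemma
-/

set_option autoImplicit false

open Matrix MeasureTheory UpperHalfPlane Topology
open scoped MatrixGroups ContDiff ComplexConjugate

namespace Pool.Agent.Hhelper97.Gam

/-- `|u|²`. -/
noncomputable def rr (p : V) : ℝ := Complex.normSq (p 1) + Complex.normSq (p 2)

/-- `σ = |u|²/y`. -/
noncomputable def sg (p : V) : ℝ := rr p / (p 0).im

lemma rr_nonneg (p : V) : 0 ≤ rr p := add_nonneg (Complex.normSq_nonneg _) (Complex.normSq_nonneg _)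

lemma im_mob (g : SL(2, ℝ)) (z : ℂ) : (mob g z).im = z.im / Complex.normSq (J g z) := by
  have hd : g 0 0 * g 1 1 - g 0 1 * g 1 0 = 1 := by
    have := g.2
    rwa [Matrix.det_fin_two] at this
  rw [mob_eq, Complex.div_im, J]
  simp
  rw [← sub_div]
  congr 1
  linear_combination z.im * hd

lemma rr_act (g : SL(2, ℝ)) (p : V) : rr (act g p) = rr p / Complex.normSq (J g (p 0)) := by
  simp [rr, act, add_div]

lemma sg_act (g : SL(2, ℝ)) {p : V} (hp : p ∈ U) : sg (act g p) = sg p := by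
  have hJ : Complex.normSq (J g (p 0)) ≠ 0 := by
    rw [Ne, Complex.normSq_eq_zero]
    exact J_ne_zero g hp
  have hy : (p 0).im ≠ 0 := (show 0 < (p 0).im from hp).ne'
  have h0 : (act g p) 0 = mob g (p 0) := by simp [act]
  rw [sg, rr_act, h0, im_mob, sg]
  field_simp

/-- The cut-off in one variable. -/
noncomputable def chi (t : ℝ) : ℝ := Real.smoothTransition (2 - t)

lemma chi_contDiff : ContDiff ℝ ∞ chi :=
  Real.smoothTransition.contDiff.comp (contDiff_const.sub contDiff_id)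

lemma chi_nonneg (t : ℝ) : 0 ≤ chi t := Real.smoothTransition.nonneg _

lemma chi_le_one (t : ℝ) : chi t ≤ 1 := Real.smoothTransition.le_one _

lemma chi_one {t : ℝ} (h : t ≤ 1) : chi t = 1 :=
  Real.smoothTransition.one_of_one_le (by linarith)

lemma chi_zero {t : ℝ} (h : 2 ≤ t) : chi t = 0 :=
  Real.smoothTransition.zero_of_nonpos (by linarith)

lemma deriv_chi_ne_zero {t : ℝ} (h : deriv chi t ≠ 0) : 1 ≤ t ∧ t ≤ 2 := by
  constructor
  · by_contra hlt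
    push Not at hlt
    apply h
    have : chi =ᶠ[𝓝 t] fun _ => 1 := by
      filter_upwards [Iio_mem_nhds hlt] with s hs
      exact chi_one hs.le
    rw [this.deriv_eq]
    simp
  · by_contra hlt
    push Not at hlt
    apply h
    have : chi =ᶠ[𝓝 t] fun _ => 0 := by
      filter_upwards [Ioi_mem_nhds hlt] with s hs
      exact chi_zero (le_of_lt hs)
    rw [this.deriv_eq]
    simp

lemma exists_deriv_chi_bound : ∃ B : ℝ, 0 ≤ B ∧ ∀ t, |deriv chi t| ≤ B := by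
  have hc : Continuous (deriv chi) := chi_contDiff.continuous_deriv (by simp)
  obtain ⟨B, hB⟩ := (isCompact_Icc (a := (1 : ℝ)) (b := 2)).exists_bound_of_continuousOn
    hc.continuousOn
  refine ⟨max B 0, le_max_right _ _, fun t => ?_⟩
  by_cases h : deriv chi t = 0
  · simp [h]
  · exact (hB t (deriv_chi_ne_zero h)).trans (le_max_left _ _)

/-- `σ` as a complex function. -/
noncomputable def sgC (p : V) : ℂ := (sg p : ℂ)

lemma contDiffAt_sg {p : V} (hp : p ∈ U) {n : WithTop ℕ∞} : ContDiffAt ℝ n sg p := by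
  have hy : (p 0).im ≠ 0 := (show 0 < (p 0).im from hp).ne'
  have h1 : ContDiffAt ℝ n rr p := by
    have : rr = fun p : V => ((p 1).re * (p 1).re + (p 1).im * (p 1).im) +
      ((p 2).re * (p 2).re + (p 2).im * (p 2).im) := rfl
    rw [this]
    have hre : ∀ i : Fin 3, ContDiffAt ℝ n (fun p : V => (p i).re) p := fun i =>
      (Complex.reCLM.contDiff.comp (contDiff_apply ℝ ℂ i)).contDiffAt
    have him : ∀ i : Fin 3, ContDiffAt ℝ n (fun p : V => (p i).im) p := fun i =>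
      (Complex.imCLM.contDiff.comp (contDiff_apply ℝ ℂ i)).contDiffAt
    exact (((hre 1).mul (hre 1)).add ((him 1).mul (him 1))).add
      (((hre 2).mul (hre 2)).add ((him 2).mul (him 2)))
  have h2 : ContDiffAt ℝ n (fun p : V => (p 0).im) p :=
    (Complex.imCLM.contDiff.comp (contDiff_apply ℝ ℂ 0)).contDiffAt
  exact h1.div h2 hy

lemma contDiffAt_sgC {p : V} (hp : p ∈ U) {n : WithTop ℕ∞} : ContDiffAt ℝ n sgC p :=
  Complex.ofRealCLM.contDiff.contDiffAt.comp p (contDiffAt_sg hp)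

/-- The cut-off function on `U`. -/
noncomputable def cut (L : ℝ) (p : V) : ℂ := (chi (sg p / L) : ℂ)

lemma contDiffAt_cut (L : ℝ) {p : V} (hp : p ∈ U) {n : ℕ∞} : ContDiffAt ℝ n (cut L) p := by
  have h1 : ContDiffAt ℝ n (fun p => chi (sg p / L)) p := by
    have h2 : ContDiffAt ℝ n (fun p => sg p / L) p := by
      simp only [div_eq_mul_inv]
      exact (contDiffAt_sg hp).mul contDiffAt_const
    exact ((chi_contDiff.of_le (by exact_mod_cast le_top)).contDiffAt).comp p h2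
  exact Complex.ofRealCLM.contDiff.contDiffAt.comp p h1

lemma wd_cut (L : ℝ) {p : V} (hp : p ∈ U) (j : Fin 3) :
    wd j (cut L) p = ((deriv chi (sg p / L) / L : ℝ) : ℂ) * wd j sgC p := by
  have hs : HasFDerivAt sg (fderiv ℝ sg p) p :=
    ((contDiffAt_sg hp (n := 1)).differentiableAt one_ne_zero).hasFDerivAt
  have h1 : HasFDerivAt (fun p => sg p / L) (L⁻¹ • fderiv ℝ sg p) p := by
    have := hs.const_mul L⁻¹
    refine this.congr_of_eventuallyEq ?_
    filter_upwards with q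
    rw [div_eq_inv_mul]
  have hchi : HasDerivAt chi (deriv chi (sg p / L)) (sg p / L) :=
    (chi_contDiff.differentiable (by simp) _).hasDerivAt
  have h2 := hchi.comp_hasFDerivAt p h1
  have h3 : HasFDerivAt (cut L)
      ((Complex.ofRealCLM : ℝ →L[ℝ] ℂ).comp (deriv chi (sg p / L) • L⁻¹ • fderiv ℝ sg p)) p :=
    (Complex.ofRealCLM : ℝ →L[ℝ] ℂ).hasFDerivAt.comp p h2
  have h4 : HasFDerivAt sgC ((Complex.ofRealCLM : ℝ →L[ℝ] ℂ).comp (fderiv ℝ sg p)) p :=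
    (Complex.ofRealCLM : ℝ →L[ℝ] ℂ).hasFDerivAt.comp p hs
  rw [wd, wd, h3.fderiv, h4.fderiv]
  simp
  ring

/-- Growth condition on the cofactor type matrix `C`. -/
def GrowthC (C : V → Matrix (Fin 3) (Fin 3) ℂ) : Prop :=
  ∃ c : ℝ, 0 ≤ c ∧ ∀ p ∈ U, p 0 ∈ tsupport psi → 1 ≤ rr p → ∀ η : Fin 3 → ℂ,
    ‖∑ j, wd j sgC p * ∑ k, C p j k * η k‖ ≤
      c * (‖η 0‖ / (rr p * √(rr p)) + (‖η 1‖ + ‖η 2‖) / rr p +
        ‖conj (p 1) * η 1 + conj (p 2) * η 2‖ / rr p)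

/-- Growth condition on the `(0,1)`-form `α`. -/
def GrowthA (α : Fin 3 → V → ℂ) : Prop :=
  ∀ ε : ℝ, 0 < ε → ∃ R : ℝ, 1 ≤ R ∧ ∀ p ∈ U, p 0 ∈ tsupport psi → R ≤ rr p →
    ‖α 0 p‖ ≤ ε * √(rr p) ∧ ‖α 1 p‖ ≤ ε ∧ ‖α 2 p‖ ≤ ε ∧
      ‖conj (p 1) * α 1 p + conj (p 2) * α 2 p‖ ≤ ε

/-- `C` transforms like the cofactor matrix of a form. -/
def EquivC (C : V → Matrix (Fin 3) (Fin 3) ℂ) : Prop :=
  ∀ γ ∈ Grp, ∀ p ∈ U, ∀ j k,
    ((‖J γ (p 0)‖⁻¹ ^ 8 : ℝ) : ℂ) * C (act γ p) j k =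
      ∑ a, ∑ b, jac γ p j a * C p a b * conj (jac γ p k b)

/-- `α` transforms like a `(0,1)`-form. -/
def EquivA (α : Fin 3 → V → ℂ) : Prop :=
  ∀ γ ∈ Grp, ∀ p ∈ U, ∀ k, α k p = ∑ l, α l (act γ p) * conj (jac γ p l k)

/-- The pairing of `C` with `∂α`. -/
noncomputable def ZZ (C : V → Matrix (Fin 3) (Fin 3) ℂ) (α : Fin 3 → V → ℂ) (p : V) : ℂ :=
  ∑ j, ∑ k, C p j k * wd j (α k) p

lemma equiv_Y {C : V → Matrix (Fin 3) (Fin 3) ℂ} {α : Fin 3 → V → ℂ} (hC : EquivC C)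
    (hα : EquivA α) {γ : SL(2, ℝ)} (hγ : γ ∈ Grp) {p : V} (hp : p ∈ U) :
    ((‖J γ (p 0)‖⁻¹ ^ 8 : ℝ) : ℂ) * ∑ k, C (act γ p) 0 k * α k (act γ p) =
      (J γ (p 0) ^ 2)⁻¹ * ∑ k, C p 0 k * α k p := by
  have h1 : ∀ k, ((‖J γ (p 0)‖⁻¹ ^ 8 : ℝ) : ℂ) * C (act γ p) 0 k =
      (J γ (p 0) ^ 2)⁻¹ * ∑ b, C p 0 b * conj (jac γ p k b) := by
    intro k
    rw [hC γ hγ p hp, Fin.sum_univ_three (f := fun a => ∑ b, _), Finset.mul_sum]
    have e1 : jac γ p 0 1 = 0 := by simp [jac]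
    have e2 : jac γ p 0 2 = 0 := by simp [jac]
    simp only [e1, e2, jac_apply_zero, zero_mul, Finset.sum_const_zero, add_zero]
    exact Finset.sum_congr rfl fun b _ => by ring
  rw [Finset.mul_sum]
  calc ∑ k, ((‖J γ (p 0)‖⁻¹ ^ 8 : ℝ) : ℂ) * (C (act γ p) 0 k * α k (act γ p))
      = ∑ k, (J γ (p 0) ^ 2)⁻¹ * ((∑ b, C p 0 b * conj (jac γ p k b)) * α k (act γ p)) := by
        refine Finset.sum_congr rfl fun k _ => ?_
        rw [← mul_assoc, h1 k]
        ring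
    _ = (J γ (p 0) ^ 2)⁻¹ * ∑ b, C p 0 b * α b p := by
        rw [← Finset.mul_sum]
        congr 1
        simp only [Finset.sum_mul]
        rw [Finset.sum_comm]
        refine Finset.sum_congr rfl fun b _ => ?_
        rw [hα γ hγ p hp b, Finset.mul_sum]
        refine Finset.sum_congr rfl fun k _ => ?_
        ring

lemma norm_le_of_rr {p : V} {B : ℝ} (hB : 0 ≤ B) (h0 : ‖p 0‖ ≤ B) (h : rr p ≤ B ^ 2) :
    ‖p‖ ≤ B := by
  rw [pi_norm_le_iff_of_nonneg hB]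
  intro i
  fin_cases i
  · exact h0
  · show ‖p 1‖ ≤ B
    have h1 : ‖p 1‖ ^ 2 ≤ B ^ 2 := by
      rw [← Complex.normSq_eq_norm_sq]
      refine le_trans ?_ h
      rw [rr]
      linarith [Complex.normSq_nonneg (p 2)]
    exact abs_le_of_sq_le_sq' h1 hB |>.2
  · show ‖p 2‖ ≤ B
    have h1 : ‖p 2‖ ^ 2 ≤ B ^ 2 := by
      rw [← Complex.normSq_eq_norm_sq]
      refine le_trans ?_ h
      rw [rr]
      linarith [Complex.normSq_nonneg (p 1)]
    exact abs_le_of_sq_le_sq' h1 hB |>.2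

/-- Bounds for `y` on the support of `ψ`. -/
lemma exists_y_bounds : ∃ y₁ y₂ : ℝ, 0 < y₁ ∧ 0 < y₂ ∧ ∀ z ∈ tsupport psi,
    y₁ ≤ z.im ∧ z.im ≤ y₂ ∧ ‖z‖ ≤ y₂ := by
  have hK : IsCompact (tsupport psi) := psi_hasCompactSupport
  obtain ⟨c1, h1⟩ := hK.exists_bound_of_continuousOn (f := fun z : ℂ => z.im⁻¹)
    (Complex.continuous_im.continuousOn.inv₀ fun z hz => (psi_im_pos z hz).ne')
  obtain ⟨c2, h2⟩ := hK.exists_bound_of_continuousOn (f := fun z : ℂ => z)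
    continuousOn_id
  refine ⟨(max c1 1)⁻¹, max c2 1, by positivity, by positivity, fun z hz => ⟨?_, ?_, ?_⟩⟩
  · have h := (h1 z hz).trans (le_max_left c1 1)
    have hz0 := psi_im_pos z hz
    rw [norm_inv, Real.norm_eq_abs, abs_of_pos hz0] at h
    exact inv_le_of_inv_le₀ hz0 h
  · exact ((Complex.abs_im_le_norm z).trans' (le_abs_self _)).trans
      ((h2 z hz).trans (le_max_left _ _))
  · exact (h2 z hz).trans (le_max_left _ _)

end Pool.Agent.Hhelper97.Gam
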