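import Mathlib

/-!
# A torsion-free cocompact Fuchsian group

`Gam` is the group of norm one elements `≡ 1 mod 3` of the order `ℤ⟨1,i,j,k⟩` of the quaternion
algebra `(-1,3)` over `ℚ`, embedded into `SL(2,ℝ)`.
It acts freely, properly discontinuously and cocompactly on the upper half plane.
-/

set_option autoImplicit false

open Matrix MeasureTheory UpperHalfPlane
open scoped MatrixGroups

namespace Pool.Agent.Hhelper97.Gam

/-- The matrix of the quaternion `x + y i + z j + w k`, with `i² = -1`, `j² = 3`, `k = ij`. -/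
noncomputable def mat (x y z w : ℝ) : Matrix (Fin 2) (Fin 2) ℝ :=
  !![x + z * √3, y - w * √3; -y - w * √3, x - z * √3]

lemma sq3 : (√3 : ℝ) * √3 = 3 := Real.mul_self_sqrt (by norm_num)

lemma det_mat (x y z w : ℝ) : (mat x y z w).det = x ^ 2 + y ^ 2 - 3 * z ^ 2 - 3 * w ^ 2 := by
  have h := sq3
  rw [mat, Matrix.det_fin_two_of]
  linear_combination (-(z ^ 2) - w ^ 2) * h

lemma mat_mul (a b c d x y z w : ℝ) :
    mat a b c d * mat x y z w =
      mat (a * x - b * y + 3 * c * z + 3 * d * w) (a * y + b * x - 3 * c * w + 3 * d * z)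
        (a * z + c * x - b * w + d * y) (a * w + d * x + b * z - c * y) := by
  have h := sq3
  ext i j
  fin_cases i <;> fin_cases j <;>
    simp only [mat, Matrix.mul_apply, Fin.sum_univ_two, Matrix.of_apply, Matrix.cons_val',
      Matrix.cons_val_zero, Matrix.cons_val_one, Matrix.cons_val_fin_one, Fin.mk_zero, Fin.mk_one,
      Fin.zero_eta, Fin.isValue]
  · linear_combination (c * z + d * w) * h
  · linear_combination (-(c * w) + d * z) * h
  · linear_combination (-(d * z) + c * w) * h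
  · linear_combination (d * w + c * z) * h

lemma mat_one : mat 1 0 0 0 = 1 := by
  ext i j
  fin_cases i <;> fin_cases j <;> simp [mat]

/-- The matrix of an integral quaternion. -/
noncomputable def matZ (v : Fin 4 → ℤ) : Matrix (Fin 2) (Fin 2) ℝ :=
  mat (v 0) (v 1) (v 2) (v 3)

/-- The reduced norm. -/
def nrd (v : Fin 4 → ℤ) : ℤ := v 0 ^ 2 + v 1 ^ 2 - 3 * v 2 ^ 2 - 3 * v 3 ^ 2

lemma det_matZ (v : Fin 4 → ℤ) : (matZ v).det = nrd v := by
  rw [matZ, det_mat, nrd]; push_cast; ring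

/-- Product of integral quaternions. -/
def mulZ (u v : Fin 4 → ℤ) : Fin 4 → ℤ :=
  ![u 0 * v 0 - u 1 * v 1 + 3 * u 2 * v 2 + 3 * u 3 * v 3,
    u 0 * v 1 + u 1 * v 0 - 3 * u 2 * v 3 + 3 * u 3 * v 2,
    u 0 * v 2 + u 2 * v 0 - u 1 * v 3 + u 3 * v 1,
    u 0 * v 3 + u 3 * v 0 + u 1 * v 2 - u 2 * v 1]

/-- Conjugate of an integral quaternion. -/
def conjZ (u : Fin 4 → ℤ) : Fin 4 → ℤ := ![u 0, -u 1, -u 2, -u 3]

lemma matZ_mul (u v : Fin 4 → ℤ) : matZ u * matZ v = matZ (mulZ u v) := by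
  rw [matZ, matZ, mat_mul, matZ, mulZ]
  simp

lemma mat_inj {a b c d x y z w : ℝ} (h : mat a b c d = mat x y z w) :
    a = x ∧ b = y ∧ c = z ∧ d = w := by
  have h3 : (0 : ℝ) < √3 := Real.sqrt_pos.2 (by norm_num)
  have h00 := congrFun (congrFun h 0) 0
  have h01 := congrFun (congrFun h 0) 1
  have h10 := congrFun (congrFun h 1) 0
  have h11 := congrFun (congrFun h 1) 1
  simp [mat] at h00 h01 h10 h11
  have hc : (c - z) * √3 = 0 := by linarith
  have hd : (d - w) * √3 = 0 := by linarith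
  have hc' := (mul_eq_zero.1 hc).resolve_right h3.ne'
  have hd' := (mul_eq_zero.1 hd).resolve_right h3.ne'
  have e1 : c = z := by linarith
  have e2 : d = w := by linarith
  subst e1 e2
  exact ⟨by linarith, by linarith, rfl, rfl⟩

lemma matZ_inj {u v : Fin 4 → ℤ} (h : matZ u = matZ v) : u = v := by
  obtain ⟨h0, h1, h2, h3⟩ := mat_inj h
  ext i
  fin_cases i
  · exact_mod_cast h0
  · exact_mod_cast h1
  · exact_mod_cast h2
  · exact_mod_cast h3

/-- The form `x² + y² - 3z² - 3w²` is anisotropic over `ℤ`. -/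
lemma nrd_ne_zero {v : Fin 4 → ℤ} (hv : v ≠ 0) : nrd v ≠ 0 := by
  intro h0
  -- infinite descent on the sum of absolute values
  have key : ∀ n : ℕ, ∀ x y z w : ℤ, x.natAbs + y.natAbs + z.natAbs + w.natAbs ≤ n →
      x ^ 2 + y ^ 2 = 3 * (z ^ 2 + w ^ 2) → x = 0 ∧ y = 0 ∧ z = 0 ∧ w = 0 := by
    intro n
    induction n using Nat.strong_induction_on with
    | _ n ih =>
      intro x y z w hn h
      have mod3 : ∀ a b : ℤ, (3 : ℤ) ∣ a ^ 2 + b ^ 2 → (3 : ℤ) ∣ a ∧ (3 : ℤ) ∣ b := by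
        intro a b hab
        have ha : a % 3 = 0 ∨ a % 3 = 1 ∨ a % 3 = 2 := by omega
        have hb : b % 3 = 0 ∨ b % 3 = 1 ∨ b % 3 = 2 := by omega
        rw [Int.dvd_iff_emod_eq_zero] at hab ⊢
        rw [Int.dvd_iff_emod_eq_zero]
        rcases ha with ha | ha | ha <;> rcases hb with hb | hb | hb <;>
          simp [pow_two, Int.add_emod, Int.mul_emod, ha, hb] at hab ⊢
      obtain ⟨⟨x', hx⟩, y', hy⟩ := mod3 x y ⟨_, h⟩
      have h' : 3 * (x' ^ 2 + y' ^ 2) = z ^ 2 + w ^ 2 := by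
        subst hx hy; linarith [h]
      obtain ⟨⟨z', hz⟩, w', hw⟩ := mod3 z w ⟨_, h'.symm⟩
      have h'' : x' ^ 2 + y' ^ 2 = 3 * (z' ^ 2 + w' ^ 2) := by
        subst hz hw; linarith [h']
      by_cases hall : x' = 0 ∧ y' = 0 ∧ z' = 0 ∧ w' = 0
      · obtain ⟨h1, h2, h3, h4⟩ := hall
        subst h1 h2 h3 h4
        simp at hx hy hz hw
        exact ⟨hx, hy, hz, hw⟩
      · exfalso
        apply hall
        have hlt : x'.natAbs + y'.natAbs + z'.natAbs + w'.natAbs < n := by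
          omega
        exact ih _ hlt x' y' z' w' le_rfl h''
  apply hv
  obtain ⟨h1, h2, h3, h4⟩ := key _ (v 0) (v 1) (v 2) (v 3) le_rfl
    (by rw [nrd] at h0; linarith)
  ext i
  fin_cases i
  · exact h1
  · exact h2
  · exact h3
  · exact h4

/-- The condition of being `≡ 1 mod 3`. -/
def CongOne (v : Fin 4 → ℤ) : Prop := (3 : ℤ) ∣ v 0 - 1 ∧ (3 : ℤ) ∣ v 1 ∧ (3 : ℤ) ∣ v 2 ∧ (3 : ℤ) ∣ v 3

lemma CongOne.mul {u v : Fin 4 → ℤ} (hu : CongOne u) (hv : CongOne v) : CongOne (mulZ u v) := by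
  obtain ⟨⟨a, ha⟩, ⟨b, hb⟩, ⟨c, hc⟩, d, hd⟩ := hu
  obtain ⟨⟨a', ha'⟩, ⟨b', hb'⟩, ⟨c', hc'⟩, d', hd'⟩ := hv
  have ha : u 0 = 1 + 3 * a := by linarith
  have ha' : v 0 = 1 + 3 * a' := by linarith
  refine ⟨?_, ?_, ?_, ?_⟩
  · simp only [mulZ, Matrix.cons_val_zero, ha, hb, hc, hd, ha', hb', hc', hd']
    exact ⟨a + a' + 3 * a * a' - 3 * b * b' + 9 * c * c' + 9 * d * d', by ring⟩
  · simp only [mulZ, Matrix.cons_val, ha, hb, hc, hd, ha', hb', hc', hd']
    exact ⟨(1 + 3 * a) * b' + b * (1 + 3 * a') - 9 * c * d' + 9 * d * c', by ring⟩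
  · simp only [mulZ, Matrix.cons_val, ha, hb, hc, hd, ha', hb', hc', hd']
    exact ⟨(1 + 3 * a) * c' + c * (1 + 3 * a') - 3 * b * d' + 3 * d * b', by ring⟩
  · simp only [mulZ, Matrix.cons_val, ha, hb, hc, hd, ha', hb', hc', hd']
    exact ⟨(1 + 3 * a) * d' + d * (1 + 3 * a') + 3 * b * c' - 3 * c * b', by ring⟩

lemma CongOne.conj {u : Fin 4 → ℤ} (hu : CongOne u) : CongOne (conjZ u) := by
  obtain ⟨ha, hb, hc, hd⟩ := hu
  exact ⟨by simpa [conjZ] using ha, by simpa [conjZ] using hb, by simpa [conjZ] using hc,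
    by simpa [conjZ] using hd⟩

lemma matZ_conj (u : Fin 4 → ℤ) : matZ (conjZ u) = (matZ u).adjugate := by
  rw [matZ, matZ, mat, mat, Matrix.adjugate_fin_two_of]
  simp [conjZ]
  ring_nf
  simp

/-- The group `Γ`. -/
def Grp : Subgroup SL(2, ℝ) where
  carrier := {g | ∃ v : Fin 4 → ℤ, CongOne v ∧ (g : Matrix (Fin 2) (Fin 2) ℝ) = matZ v}
  one_mem' := ⟨![1, 0, 0, 0], ⟨by simp, by simp, by simp, by simp⟩, by
    rw [matZ]; simp [mat_one]⟩
  mul_mem' := by
    rintro g h ⟨u, hu, hgu⟩ ⟨v, hv, hhv⟩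
    exact ⟨mulZ u v, hu.mul hv, by
      rw [Matrix.SpecialLinearGroup.coe_mul, hgu, hhv, matZ_mul]⟩
  inv_mem' := by
    rintro g ⟨u, hu, hgu⟩
    exact ⟨conjZ u, hu.conj, by
      rw [Matrix.SpecialLinearGroup.coe_inv, hgu, matZ_conj]⟩

lemma mem_Grp {g : SL(2, ℝ)} : g ∈ Grp ↔
    ∃ v : Fin 4 → ℤ, CongOne v ∧ (g : Matrix (Fin 2) (Fin 2) ℝ) = matZ v := Iff.rfl

/-- The four entries of an element of `Γ` give back the integers. -/
lemma entries {g : SL(2, ℝ)} {v : Fin 4 → ℤ} (h : (g : Matrix (Fin 2) (Fin 2) ℝ) = matZ v) :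
    g 0 0 + g 1 1 = 2 * (v 0 : ℝ) ∧ g 0 1 - g 1 0 = 2 * (v 1 : ℝ) ∧
      g 0 0 - g 1 1 = 2 * (v 2 : ℝ) * √3 ∧ g 0 1 + g 1 0 = -2 * (v 3 : ℝ) * √3 := by
  rw [h, matZ, mat]
  simp
  refine ⟨by ring, by ring, by ring, by ring⟩

lemma matZ_nrd_one {g : SL(2, ℝ)} {v : Fin 4 → ℤ}
    (h : (g : Matrix (Fin 2) (Fin 2) ℝ) = matZ v) : nrd v = 1 := by
  have h1 : (g : Matrix (Fin 2) (Fin 2) ℝ).det = 1 := g.2
  rw [h, det_matZ] at h1
  exact_mod_cast h1

/-- Elements of `Γ` with `|x| ≤ 1` are trivial. -/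
lemma eq_one_of_small {g : SL(2, ℝ)} {v : Fin 4 → ℤ} (hv : CongOne v)
    (h : (g : Matrix (Fin 2) (Fin 2) ℝ) = matZ v) (hx : |v 0| ≤ 1) : g = 1 := by
  have hn := matZ_nrd_one h
  obtain ⟨h0, h1, h2, h3⟩ := hv
  have hx1 : v 0 = 1 := by
    rw [abs_le] at hx; omega
  have hz : (![0, v 1, v 2, v 3] : Fin 4 → ℤ) = 0 := by
    by_contra hne
    apply nrd_ne_zero hne
    simp [nrd] at hn ⊢
    rw [hx1] at hn
    linarith
  have e1 : v 1 = 0 := by simpa using congrFun hz 1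
  have e2 : v 2 = 0 := by simpa using congrFun hz 2
  have e3 : v 3 = 0 := by simpa using congrFun hz 3
  apply Subtype.ext
  rw [h, matZ, hx1, e1, e2, e3]
  simp [mat_one]

/-- `Γ` acts freely on the upper half plane. -/
theorem free {g : SL(2, ℝ)} (hg : g ∈ Grp) (τ : ℍ) (h : g • τ = τ) : g = 1 := by
  obtain ⟨v, hv, hgv⟩ := hg
  apply eq_one_of_small hv hgv
  obtain ⟨e0, -, -, -⟩ := entries hgv
  -- the trace is small
  have hdet : g 0 0 * g 1 1 - g 0 1 * g 1 0 = 1 := by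
    have := g.2
    rwa [Matrix.det_fin_two] at this
  have him : (τ : ℂ).im ≠ 0 := τ.im_ne_zero
  have hcoe : ((g • τ : ℍ) : ℂ) = (g 0 0 * τ + g 0 1) / (g 1 0 * τ + g 1 1) := by
    rw [UpperHalfPlane.specialLinearGroup_apply]
    simp
  rw [h] at hcoe
  have hden : ((g 1 0 : ℂ) * τ + g 1 1) ≠ 0 := by
    intro h0
    have him0 := congrArg Complex.im h0
    simp at him0
    rcases him0 with h1 | h1
    · rw [h1] at h0 hdet
      simp at h0
      rw [h0] at hdet
      simp at hdet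
    · exact him h1
  rw [eq_div_iff hden] at hcoe
  have hre := congrArg Complex.re hcoe
  have him' := congrArg Complex.im hcoe
  simp only [Complex.mul_re, Complex.mul_im, Complex.add_re, Complex.add_im, Complex.ofReal_re,
    Complex.ofReal_im, zero_mul, mul_zero, sub_zero, add_zero, zero_add] at hre him'
  set x := (τ : ℂ).re
  set y := (τ : ℂ).im
  set a := g 0 0
  set b := g 0 1
  set c := g 1 0
  set d := g 1 1
  -- him' : 2 c x y + d y = a y ; hre : c (x² - y²) + d x = a x + b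
  have h1 : 2 * c * x + d - a = 0 := by
    have : y * (2 * c * x + d - a) = 0 := by linarith
    exact (mul_eq_zero.1 this).resolve_left him
  have h2 : (a + d) ^ 2 = 4 - 4 * c ^ 2 * y ^ 2 := by
    have hb : b = c * (x ^ 2 - y ^ 2) + d * x - a * x := by linarith
    have ha : a = 2 * c * x + d := by linarith
    have hdet' : a * d - b * c = 1 := hdet
    rw [hb, ha] at hdet'
    rw [ha]
    linarith [hdet']
  have h3 : (2 * (v 0 : ℝ)) ^ 2 ≤ 4 := by
    rw [← e0, h2]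
    nlinarith [sq_nonneg (c * y)]
  have h4 : (v 0 : ℝ) ^ 2 ≤ 1 := by linarith
  have h5 : (v 0) ^ 2 ≤ 1 := by exact_mod_cast h4
  exact abs_le_one_iff_mul_self_le_one.2 (by nlinarith)

/-- `Γ` is discrete. -/
instance discrete : DiscreteTopology Grp := by
  rw [discreteTopology_iff_isOpen_singleton_one]
  have hU : IsOpen {g : SL(2, ℝ) | g 0 0 + g 1 1 < 4 ∧ 0 < g 0 0 + g 1 1} := by
    have hc : Continuous fun g : SL(2, ℝ) => g 0 0 + g 1 1 := by fun_prop
    exact (isOpen_lt hc continuous_const).inter (isOpen_lt continuous_const hc)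
  have : ({1} : Set Grp) =
      Subtype.val ⁻¹' {g : SL(2, ℝ) | g 0 0 + g 1 1 < 4 ∧ 0 < g 0 0 + g 1 1} := by
    ext ⟨g, hg⟩
    constructor
    · intro h
      have h : g = 1 := congrArg Subtype.val (h : (⟨g, hg⟩ : Grp) = 1)
      subst h
      simp
      norm_num
    · rintro ⟨h1, h2⟩
      obtain ⟨v, hv, hgv⟩ := hg
      obtain ⟨e0, -⟩ := entries hgv
      simp only at h1 h2
      rw [e0] at h1 h2
      have h1' : v 0 < 2 := by
        have : (v 0 : ℝ) < 2 := by linarith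
        exact_mod_cast this
      have h2' : 0 < v 0 := by
        have : (0 : ℝ) < v 0 := by linarith
        exact_mod_cast this
      have : g = 1 := eq_one_of_small hv hgv (by rw [abs_le]; constructor <;> omega)
      exact Subtype.ext this
  rw [this]
  exact hU.preimage continuous_subtype_val

end Pool.Agent.Hhelper97.Gam
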