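import Pool.Agent.Hhelper97.Gam.Cutoff

/-!
# The general Stokes lemma
-/

set_option autoImplicit false

open Matrix MeasureTheory UpperHalfPlane Topology
open scoped MatrixGroups ContDiff ComplexConjugate

namespace Pool.Agent.Hhelper97.Gam

/-- The vector density `C α`. -/
noncomputable def YY (C : V → Matrix (Fin 3) (Fin 3) ℂ) (α : Fin 3 → V → ℂ) (j : Fin 3) (p : V) :
    ℂ := ∑ k, C p j k * α k p

variable {C : V → Matrix (Fin 3) (Fin 3) ℂ} {α : Fin 3 → V → ℂ}

lemma contDiffOn_YY (hC : ∀ j k, ContDiffOn ℝ 1 (fun p => C p j k) U)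
    (hα : ∀ k, ContDiffOn ℝ 1 (α k) U) (j : Fin 3) : ContDiffOn ℝ 1 (YY C α j) U := by
  unfold YY
  exact ContDiffOn.sum fun k _ => (hC j k).mul (hα k)

lemma contDiffOn_cut (L : ℝ) : ContDiffOn ℝ 1 (cut L) U := fun _ hp =>
  (contDiffAt_cut L hp (n := 1)).contDiffWithinAt

lemma diffAt_of {f : V → ℂ} (hf : ContDiffOn ℝ 1 f U) {p : V} (hp : p ∈ U) :
    DifferentiableAt ℝ f p :=
  (hf.differentiableOn one_ne_zero).differentiableAt (isOpen_U.mem_nhds hp)

lemma div_YY (hC : ∀ j k, ContDiffOn ℝ 1 (fun p => C p j k) U)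
    (hdiv : ∀ k, ∀ p ∈ U, ∑ j, wd j (fun q => C q j k) p = 0)
    (hα : ∀ k, ContDiffOn ℝ 1 (α k) U) {p : V} (hp : p ∈ U) :
    ∑ j, wd j (YY C α j) p = ZZ C α p := by
  have h1 : ∀ j, wd j (YY C α j) p =
      ∑ k, (wd j (fun q => C q j k) p * α k p + C p j k * wd j (α k) p) := by
    intro j
    unfold YY
    rw [wd_sum]
    · exact Finset.sum_congr rfl fun k _ => wd_mul (diffAt_of (hC j k) hp) (diffAt_of (hα k) hp) j
    · exact fun k _ => (diffAt_of (hC j k) hp).mul (diffAt_of (hα k) hp)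
  simp only [h1, Finset.sum_add_distrib]
  rw [ZZ]
  have h2 : ∑ j, ∑ k, wd j (fun q => C q j k) p * α k p = 0 := by
    rw [Finset.sum_comm]
    refine Finset.sum_eq_zero fun k _ => ?_
    rw [← Finset.sum_mul, hdiv k p hp, zero_mul]
  rw [h2, zero_add]

lemma cut_support {L : ℝ} (hL : 0 < L) {p : V} (hp : p ∈ U) (h : sg p / L ≤ 2) {y : ℝ}
    (hy : (p 0).im ≤ y) : rr p ≤ 2 * L * y := by
  have hy0 : 0 < (p 0).im := hp
  rw [sg, div_div, div_le_iff₀ (by positivity)] at h
  nlinarith [mul_le_mul_of_nonneg_left hy hL.le]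

lemma cut_ne_zero {L : ℝ} {p : V} (h : cut L p ≠ 0) : sg p / L ≤ 2 := by
  by_contra h2
  push Not at h2
  exact h (by rw [cut, chi_zero h2.le]; simp)

lemma cut_act (L : ℝ) (g : SL(2, ℝ)) {p : V} (hp : p ∈ U) : cut L (act g p) = cut L p := by
  rw [cut, sg_act g hp, cut]

lemma step1 (hC : ∀ j k, ContDiffOn ℝ 1 (fun p => C p j k) U)
    (hdiv : ∀ k, ∀ p ∈ U, ∑ j, wd j (fun q => C q j k) p = 0)
    (hCe : EquivC C) (hα : ∀ k, ContDiffOn ℝ 1 (α k) U) (hαe : EquivA α)
    {L : ℝ} (hL : 0 < L) :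
    ∫ p in U, psiC p * (cut L p * ZZ C α p) =
      -∫ p in U, psiC p * ∑ j, wd j (cut L) p * YY C α j p := by
  obtain ⟨y₁, y₂, hy₁, hy₂, hy⟩ := exists_y_bounds
  set B : ℝ := 1 + y₂ + 2 * L * y₂ with hB
  have hB1 : 1 ≤ B := by rw [hB]; nlinarith [mul_pos hL hy₂]
  have hBB : ∀ p ∈ U, p 0 ∈ tsupport psi → sg p / L ≤ 2 → ‖p‖ ≤ B := by
    intro p hp hp0 hs
    obtain ⟨h1, h2, h3⟩ := hy _ hp0
    refine norm_le_of_rr (by linarith) (h3.trans ?_) ((cut_support hL hp hs h2).trans ?_)
    · rw [hB]; nlinarith [mul_pos hL hy₂]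
    · nlinarith [mul_pos hL hy₂]
  have hYc := contDiffOn_YY hC hα
  have hs := stokes_compact (Y := fun j p => cut L p * YY C α j p) (B := B)
    (fun j => (contDiffOn_cut L).mul (hYc j)) (fun j p hp hp0 hne => ?_) (fun γ hγ p hp => ?_)
  rotate_left
  · apply hBB p hp hp0
    apply cut_ne_zero
    intro h
    exact hne (by simp [h])
  · have := equiv_Y hCe hαe hγ hp
    rw [cut_act L γ hp, YY, YY]
    linear_combination cut L p * this
  have key : ∀ p ∈ U, psiC p * ∑ j, wd j (fun p => cut L p * YY C α j p) p =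
      psiC p * (cut L p * ZZ C α p) + psiC p * ∑ j, wd j (cut L) p * YY C α j p := by
    intro p hp
    have h1 : ∀ j, wd j (fun p => cut L p * YY C α j p) p =
        wd j (cut L) p * YY C α j p + cut L p * wd j (YY C α j) p := fun j =>
      wd_mul (diffAt_of (contDiffOn_cut L) hp) (diffAt_of (hYc j) hp) j
    simp only [h1, Finset.sum_add_distrib]
    rw [← Finset.mul_sum, div_YY hC hdiv hα hp]
    ring
  rw [setIntegral_congr_fun isOpen_U.measurableSet key, integral_add] at hs
  · exact eq_neg_of_add_eq_zero_left hs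
  · refine integrableOn_U (B := B) ?_ ?_
    · refine contDiff_psiC.continuous.continuousOn.mul
        ((contDiffOn_cut L).continuousOn.mul ?_)
      unfold ZZ
      exact continuousOn_finsetSum _ fun j _ => continuousOn_finsetSum _ fun k _ =>
        (hC j k).continuousOn.mul (continuousOn_wd (hα k) j)
    · intro p hp hne
      have h1 : psiC p ≠ 0 := by
        intro h; simp [h] at hne
      have h2 : cut L p ≠ 0 := by
        intro h; simp [h] at hne
      exact ⟨psiC_ne_zero h1, hBB p hp (psiC_ne_zero h1) (cut_ne_zero h2)⟩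
  · refine integrableOn_U (B := B) ?_ ?_
    · refine contDiff_psiC.continuous.continuousOn.mul ?_
      exact continuousOn_finsetSum _ fun j _ =>
        (continuousOn_wd (contDiffOn_cut L) j).mul (hYc j).continuousOn
    · intro p hp hne
      have h1 : psiC p ≠ 0 := by
        intro h; simp [h] at hne
      have h2 : deriv chi (sg p / L) ≠ 0 := by
        intro h
        apply hne
        have : ∀ j, wd j (cut L) p = 0 := fun j => by rw [wd_cut L hp, h]; simp
        simp [this]
      exact ⟨psiC_ne_zero h1, hBB p hp (psiC_ne_zero h1) (deriv_chi_ne_zero h2).2⟩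

/-- The region where the cut-off varies. -/
def SL' (ρ : ℝ) : Set V := Set.pi Set.univ ![tsupport psi, Metric.closedBall 0 ρ, Metric.closedBall 0 ρ]

lemma volume_SL' {ρ : ℝ} (hρ : 0 ≤ ρ) : volume (SL' ρ) =
    volume (tsupport psi) * ENNReal.ofReal (Real.pi ^ 2 * ρ ^ 4) := by
  rw [SL', volume_pi_pi, Fin.prod_univ_three]
  simp only [Matrix.cons_val_zero, Matrix.cons_val_one, Matrix.cons_val, Complex.volume_closedBall]
  rw [mul_assoc]
  congr 1
  have : (NNReal.pi : ENNReal) = ENNReal.ofReal Real.pi := by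
    rw [ENNReal.ofReal, ← NNReal.coe_real_pi, Real.toNNReal_coe]
  rw [this, ← ENNReal.ofReal_pow hρ, ← ENNReal.ofReal_mul (by positivity),
    ← ENNReal.ofReal_mul (by positivity)]
  congr 1
  ring

lemma step2 (hgC : GrowthC C) (hgA : GrowthA α) :
    Filter.Tendsto (fun n : ℕ => ∫ p in U, psiC p * ∑ j, wd j (cut ((n : ℝ) + 1)) p * YY C α j p)
      Filter.atTop (𝓝 0) := by
  obtain ⟨y₁, y₂, hy₁, hy₂, hy⟩ := exists_y_bounds
  obtain ⟨c, hc0, hc⟩ := hgC
  obtain ⟨Bχ, hBχ0, hBχ⟩ := exists_deriv_chi_bound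
  obtain ⟨M, hM⟩ := psi_contDiff.continuous.bounded_above_of_compact_support
    psi_hasCompactSupport
  have hM0 : 0 ≤ M := (norm_nonneg _).trans (hM 0)
  set vK : ℝ := (volume (tsupport psi)).toReal with hvK
  have hvK0 : 0 ≤ vK := ENNReal.toReal_nonneg
  have hfin : volume (tsupport psi) < ⊤ :=
    (show IsCompact (tsupport psi) from psi_hasCompactSupport).measure_lt_top
  set Q : ℝ := M * Bχ * c * 4 / y₁ * (vK * (Real.pi ^ 2 * (4 * y₂ ^ 2))) with hQ
  have hQ0 : 0 ≤ Q := by positivity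
  rw [Metric.tendsto_atTop]
  intro δ hδ
  set ε : ℝ := δ / (2 * (Q + 1)) with hε
  have hε0 : 0 < ε := by positivity
  obtain ⟨R, hR1, hR⟩ := hgA ε hε0
  obtain ⟨N, hN⟩ := exists_nat_gt (R / y₁)
  refine ⟨N, fun n hn => ?_⟩
  set L : ℝ := (n : ℝ) + 1 with hLdef
  have hL : 0 < L := by positivity
  have hL1 : 1 ≤ L := by rw [hLdef]; linarith [Nat.cast_nonneg (α := ℝ) n]
  have hLR : R ≤ L * y₁ := by
    have h1 : (N : ℝ) ≤ n := by exact_mod_cast hn
    have h2 : R / y₁ < L := by rw [hLdef]; linarith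
    rw [div_lt_iff₀ hy₁] at h2
    exact h2.le
  rw [dist_zero_right]
  set ρ : ℝ := √(2 * L * y₂) with hρ
  have hρ0 : 0 ≤ ρ := Real.sqrt_nonneg _
  have hρ4 : ρ ^ 4 = 4 * L ^ 2 * y₂ ^ 2 := by
    have : ρ ^ 2 = 2 * L * y₂ := Real.sq_sqrt (by positivity)
    calc ρ ^ 4 = (ρ ^ 2) ^ 2 := by ring
      _ = _ := by rw [this]; ring
  set F : V → ℂ := fun p => psiC p * ∑ j, wd j (cut L) p * YY C α j p with hF
  have hFne : ∀ p ∈ U, F p ≠ 0 → p 0 ∈ tsupport psi ∧ deriv chi (sg p / L) ≠ 0 := by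
    intro p hp hne
    have h1 : psiC p ≠ 0 := by
      intro h; exact hne (by simp [hF, h])
    have h2 : deriv chi (sg p / L) ≠ 0 := by
      intro h
      apply hne
      have : ∀ j, wd j (cut L) p = 0 := fun j => by rw [wd_cut L hp, h]; simp
      simp [hF, this]
    exact ⟨psiC_ne_zero h1, h2⟩
  have hSU : SL' ρ ⊆ U := by
    intro p hp
    have := hp 0 (Set.mem_univ _)
    exact psi_im_pos _ this
  have hrestrict : ∫ p in U, F p = ∫ p in SL' ρ, F p := by
    apply setIntegral_eq_of_subset_of_forall_sdiff_eq_zero isOpen_U.measurableSet hSU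
    rintro p ⟨hp, hpS⟩
    by_contra hne
    obtain ⟨h1, h2⟩ := hFne p hp hne
    apply hpS
    have h3 := cut_support hL hp (deriv_chi_ne_zero h2).2 (hy _ h1).2.1
    have hb : ∀ i : Fin 3, Complex.normSq (p i) ≤ rr p → ‖p i‖ ≤ ρ := by
      intro i hi
      apply Real.le_sqrt_of_sq_le
      rw [← Complex.normSq_eq_norm_sq]
      exact hi.trans h3
    intro i _
    fin_cases i
    · exact h1
    · show p 1 ∈ Metric.closedBall 0 ρ
      rw [mem_closedBall_zero_iff]
      apply hb 1
      rw [rr]; linarith [Complex.normSq_nonneg (p 2)]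
    · show p 2 ∈ Metric.closedBall 0 ρ
      rw [mem_closedBall_zero_iff]
      apply hb 2
      rw [rr]; linarith [Complex.normSq_nonneg (p 1)]
  have hbound : ∀ p ∈ SL' ρ, ‖F p‖ ≤ M * (Bχ / L) * (c * (4 * ε / (L * y₁))) := by
    intro p hpS
    have hp := hSU hpS
    by_cases hne : F p = 0
    · rw [hne, norm_zero]; positivity
    · obtain ⟨h1, h2⟩ := hFne p hp hne
      have hrr : L * y₁ ≤ rr p := by
        have h3 := (deriv_chi_ne_zero h2).1
        have hy0 : 0 < (p 0).im := hp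
        rw [sg, div_div, le_div_iff₀ (by positivity), one_mul] at h3
        nlinarith [mul_le_mul_of_nonneg_left (hy _ h1).1 hL.le]
      have hrr1 : 1 ≤ rr p := hR1.trans (hLR.trans hrr)
      have hrr0 : 0 < rr p := by linarith
      have hsq : 0 < √(rr p) := Real.sqrt_pos.2 hrr0
      obtain ⟨ha0, ha1, ha2, ha3⟩ := hR p hp h1 (hLR.trans hrr)
      have hc' := hc p hp h1 hrr1 (fun k => α k p)
      have e1 : ∑ j, wd j (cut L) p * YY C α j p =
          ((deriv chi (sg p / L) / L : ℝ) : ℂ) * ∑ j, wd j sgC p * ∑ k, C p j k * α k p := by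
        rw [Finset.mul_sum]
        refine Finset.sum_congr rfl fun j _ => ?_
        rw [wd_cut L hp, YY]
        ring
      have e2 : ‖∑ j, wd j sgC p * ∑ k, C p j k * α k p‖ ≤ c * (4 * ε / (L * y₁)) := by
        refine hc'.trans (mul_le_mul_of_nonneg_left ?_ hc0)
        have g0 : ‖α 0 p‖ / (rr p * √(rr p)) ≤ ε / rr p := by
          rw [div_le_div_iff₀ (by positivity) hrr0]
          nlinarith [mul_le_mul_of_nonneg_right ha0 hrr0.le]
        have g1 : (‖α 1 p‖ + ‖α 2 p‖) / rr p ≤ (ε + ε) / rr p := by gcongr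
        have g2 : ‖conj (p 1) * α 1 p + conj (p 2) * α 2 p‖ / rr p ≤ ε / rr p := by gcongr
        calc _ ≤ ε / rr p + (ε + ε) / rr p + ε / rr p := add_le_add (add_le_add g0 g1) g2
          _ = 4 * ε / rr p := by ring
          _ ≤ 4 * ε / (L * y₁) := by gcongr
      rw [hF]
      simp only
      rw [e1, norm_mul, norm_mul, mul_assoc M]
      refine mul_le_mul ?_ (mul_le_mul ?_ e2 (norm_nonneg _) (by positivity)) (by positivity) hM0
      · rw [psiC, Complex.norm_real]
        exact hM _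
      · rw [Complex.norm_real, norm_div, Real.norm_eq_abs, Real.norm_eq_abs, abs_of_pos hL]
        gcongr
        exact hBχ _
  have hvol : volume (SL' ρ) < ⊤ := by
    rw [volume_SL' hρ0]
    exact ENNReal.mul_lt_top hfin ENNReal.ofReal_lt_top
  have hreal : (volume (SL' ρ)).toReal = vK * (Real.pi ^ 2 * ρ ^ 4) := by
    rw [volume_SL' hρ0, ENNReal.toReal_mul, ENNReal.toReal_ofReal (by positivity)]
  have hfinal := norm_setIntegral_le_of_norm_le_const hvol hbound
  rw [hrestrict]
  refine lt_of_le_of_lt hfinal ?_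
  rw [Measure.real, hreal, hρ4]
  have : M * (Bχ / L) * (c * (4 * ε / (L * y₁))) * (vK * (Real.pi ^ 2 * (4 * L ^ 2 * y₂ ^ 2))) =
      Q * ε := by
    rw [hQ]
    field_simp
  rw [this, hε]
  have h1 : Q * (δ / (2 * (Q + 1))) = δ / 2 * (Q / (Q + 1)) := by
    field_simp
  have h2 : Q / (Q + 1) ≤ 1 := by
    rw [div_le_one (by positivity)]; linarith
  rw [h1]
  nlinarith

/-- The general Stokes lemma. -/
theorem stokes_main (hC : ∀ j k, ContDiffOn ℝ 1 (fun p => C p j k) U)
    (hdiv : ∀ k, ∀ p ∈ U, ∑ j, wd j (fun q => C q j k) p = 0)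
    (hCe : EquivC C) (hα : ∀ k, ContDiffOn ℝ 1 (α k) U) (hαe : EquivA α)
    (hgC : GrowthC C) (hgA : GrowthA α)
    (hint : IntegrableOn (fun p => psi (p 0) * (ZZ C α p).re) U) :
    ∫ p in U, psi (p 0) * (ZZ C α p).re = 0 := by
  have h1 : ∀ n : ℕ, ∫ p in U, psiC p * (cut ((n : ℝ) + 1) p * ZZ C α p) =
      -∫ p in U, psiC p * ∑ j, wd j (cut ((n : ℝ) + 1)) p * YY C α j p := fun n =>
    step1 hC hdiv hCe hα hαe (by positivity)
  have h2 : Filter.Tendsto (fun n : ℕ => (∫ p in U, psiC p * (cut ((n : ℝ) + 1) p * ZZ C α p)).re)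
      Filter.atTop (𝓝 0) := by
    have h3 := (step2 hgC hgA).neg
    simp only [← h1, neg_zero] at h3
    exact (Complex.continuous_re.tendsto 0).comp h3
  have hre : ∀ n : ℕ, (∫ p in U, psiC p * (cut ((n : ℝ) + 1) p * ZZ C α p)).re =
      ∫ p in U, chi (sg p / ((n : ℝ) + 1)) * (psi (p 0) * (ZZ C α p).re) := by
    intro n
    have hint' : IntegrableOn (fun p => psiC p * (cut ((n : ℝ) + 1) p * ZZ C α p)) U := by
      obtain ⟨y₁, y₂, hy₁, hy₂, hy⟩ := exists_y_bounds
      set L : ℝ := (n : ℝ) + 1 with hLdef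
      have hL : 0 < L := by positivity
      refine integrableOn_U (B := 1 + y₂ + 2 * L * y₂) ?_ ?_
      · refine contDiff_psiC.continuous.continuousOn.mul
          ((contDiffOn_cut L).continuousOn.mul ?_)
        unfold ZZ
        exact continuousOn_finsetSum _ fun j _ => continuousOn_finsetSum _ fun k _ =>
          (hC j k).continuousOn.mul (continuousOn_wd (hα k) j)
      · intro p hp hne
        have h1 : psiC p ≠ 0 := by
          intro h; simp [h] at hne
        have h2 : cut L p ≠ 0 := by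
          intro h; simp [h] at hne
        have hp0 := psiC_ne_zero h1
        obtain ⟨g1, g2, g3⟩ := hy _ hp0
        refine ⟨hp0, norm_le_of_rr (by positivity) (g3.trans ?_)
          ((cut_support hL hp (cut_ne_zero h2) g2).trans ?_)⟩
        · nlinarith [mul_pos hL hy₂]
        · nlinarith [mul_pos hL hy₂]
    have : (∫ p in U, psiC p * (cut ((n : ℝ) + 1) p * ZZ C α p)).re =
        ∫ p in U, (psiC p * (cut ((n : ℝ) + 1) p * ZZ C α p)).re :=
      (Complex.reCLM.integral_comp_comm hint').symm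
    rw [this]
    refine setIntegral_congr_fun isOpen_U.measurableSet fun p _ => ?_
    simp only [psiC, cut, Complex.re_ofReal_mul]
    ring
  simp only [hre] at h2
  have h3 : Filter.Tendsto (fun n : ℕ =>
      ∫ p in U, chi (sg p / ((n : ℝ) + 1)) * (psi (p 0) * (ZZ C α p).re)) Filter.atTop
      (𝓝 (∫ p in U, psi (p 0) * (ZZ C α p).re)) := by
    refine tendsto_integral_of_dominated_convergence
      (fun p => ‖psi (p 0) * (ZZ C α p).re‖) ?_ hint.norm ?_ ?_
    · intro n
      refine AEStronglyMeasurable.mul ?_ hint.aestronglyMeasurable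
      have hc : ContinuousOn (fun p => chi (sg p / ((n : ℝ) + 1))) U := by
        refine chi_contDiff.continuous.comp_continuousOn ?_
        refine ContinuousOn.div_const ?_ _
        exact fun p hp => ((contDiffAt_sg hp (n := 1)).continuousAt).continuousWithinAt
      exact hc.aestronglyMeasurable isOpen_U.measurableSet
    · intro n
      filter_upwards with p
      rw [norm_mul]
      have : ‖chi (sg p / ((n : ℝ) + 1))‖ ≤ 1 := by
        rw [Real.norm_eq_abs, abs_of_nonneg (chi_nonneg _)]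
        exact chi_le_one _
      exact mul_le_of_le_one_left (norm_nonneg _) this
    · filter_upwards with p
      have : ∀ᶠ n : ℕ in Filter.atTop, chi (sg p / ((n : ℝ) + 1)) = 1 := by
        obtain ⟨N, hN⟩ := exists_nat_gt (sg p)
        filter_upwards [Filter.eventually_ge_atTop N] with n hn
        apply chi_one
        rw [div_le_one (by positivity)]
        have : (N : ℝ) ≤ n := by exact_mod_cast hn
        linarith
      refine tendsto_const_nhds.congr' ?_
      filter_upwards [this] with n hn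
      rw [hn, one_mul]
  exact tendsto_nhds_unique h3 h2

end Pool.Agent.Hhelper97.Gam
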