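import Pool.Agent.Hhelper97.Gam.Cocompact

/-!
# The weight `ψ`: a smooth compactly supported function on the half plane with `∑ ψ(γ z) = 1`
-/

set_option autoImplicit false

open Matrix MeasureTheory UpperHalfPlane Topology
open scoped MatrixGroups ContDiff

namespace Pool.Agent.Hhelper97.Gam

/-- The Möbius transformation as a function on `ℂ`. -/
noncomputable def mob (g : SL(2, ℝ)) (z : ℂ) : ℂ :=
  ((g 0 0 : ℂ) * z + g 0 1) / ((g 1 0 : ℂ) * z + g 1 1)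

lemma mob_coe (g : SL(2, ℝ)) (τ : ℍ) : mob g τ = ((g • τ : ℍ) : ℂ) := by
  rw [UpperHalfPlane.specialLinearGroup_apply]
  simp [mob]

lemma den_ne_zero (g : SL(2, ℝ)) {z : ℂ} (hz : 0 < z.im) : (g 1 0 : ℂ) * z + g 1 1 ≠ 0 := by
  intro h0
  have him0 := congrArg Complex.im h0
  have hdet : g 0 0 * g 1 1 - g 0 1 * g 1 0 = 1 := by
    have := g.2
    rwa [Matrix.det_fin_two] at this
  simp at him0
  rcases him0 with h1 | h1
  · rw [h1] at h0 hdet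
    simp at h0
    rw [h0] at hdet
    simp at hdet
  · exact hz.ne' h1

lemma mob_im_pos (g : SL(2, ℝ)) {z : ℂ} (hz : 0 < z.im) : 0 < (mob g z).im := by
  have := mob_coe g ⟨z, hz⟩
  rw [show mob g z = mob g ((⟨z, hz⟩ : ℍ) : ℂ) from rfl, this]
  exact (g • (⟨z, hz⟩ : ℍ)).im_pos

lemma mob_mul (g h : SL(2, ℝ)) {z : ℂ} (hz : 0 < z.im) : mob (g * h) z = mob g (mob h z) := by
  have h1 := mob_coe (g * h) ⟨z, hz⟩
  have h2 := mob_coe h ⟨z, hz⟩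
  have h3 := mob_coe g (h • (⟨z, hz⟩ : ℍ))
  rw [mul_smul] at h1
  rw [show mob (g * h) z = mob (g * h) ((⟨z, hz⟩ : ℍ) : ℂ) from rfl, h1, ← h3, ← h2]

lemma mob_one (z : ℂ) : mob 1 z = z := by simp [mob]

lemma contDiffAt_mob (g : SL(2, ℝ)) {z : ℂ} (hz : 0 < z.im) {n : WithTop ℕ∞} :
    ContDiffAt ℝ n (mob g) z := by
  have h1 : ContDiffAt ℝ n (fun z : ℂ => (g 0 0 : ℂ) * z + g 0 1) z := by fun_prop
  have h2 : ContDiffAt ℝ n (fun z : ℂ => (g 1 0 : ℂ) * z + g 1 1) z := by fun_prop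
  exact h1.mul (h2.inv (den_ne_zero g hz))

/-- Local finiteness: for every `z` in the half plane and compact `K` there is a neighbourhood
meeting only finitely many translates of `K`. -/
lemma locally_finite {K : Set ℂ} (hK : IsCompact K) (hKU : ∀ z ∈ K, 0 < z.im) {z : ℂ}
    (hz : 0 < z.im) :
    ∃ N ∈ 𝓝 z, (∀ x ∈ N, 0 < x.im) ∧
      {γ : Grp | ∃ x ∈ N, mob (γ : SL(2, ℝ)) x ∈ K}.Finite := by
  obtain ⟨N, hN, hNU, hNc⟩ : ∃ N ∈ 𝓝 z, (∀ x ∈ N, 0 < x.im) ∧ IsCompact N := by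
    have : {x : ℂ | 0 < x.im} ∈ 𝓝 z :=
      (isOpen_lt continuous_const Complex.continuous_im).mem_nhds hz
    obtain ⟨N, hN, hNs, hNc⟩ := local_compact_nhds this
    exact ⟨N, hN, fun x hx => hNs hx, hNc⟩
  refine ⟨N, hN, hNU, ?_⟩
  have hemb : IsOpenEmbedding (fun τ : ℍ => (τ : ℂ)) := UpperHalfPlane.isOpenEmbedding_coe
  have hK' : IsCompact ((fun τ : ℍ => (τ : ℂ)) ⁻¹' K) :=
    hemb.isInducing.isCompact_preimage' hK (fun x hx => ⟨⟨x, hKU x hx⟩, rfl⟩)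
  have hN' : IsCompact ((fun τ : ℍ => (τ : ℂ)) ⁻¹' N) :=
    hemb.isInducing.isCompact_preimage' hNc (fun x hx => ⟨⟨x, hNU x hx⟩, rfl⟩)
  refine (ProperlyDiscontinuousSMul.finite_disjoint_inter_image (Γ := Grp) hN' hK').subset ?_
  rintro γ ⟨x, hxN, hxK⟩
  have hmem : ((γ • (⟨x, hNU x hxN⟩ : ℍ) : ℍ) : ℂ) ∈ K := by
    show (((γ : SL(2, ℝ)) • (⟨x, hNU x hxN⟩ : ℍ) : ℍ) : ℂ) ∈ K
    rw [← mob_coe]
    exact hxK
  exact ⟨γ • (⟨x, hNU x hxN⟩ : ℍ), Set.mem_image_of_mem _ (show (⟨x, hNU x hxN⟩ : ℍ) ∈ _ from hxN), hmem⟩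

lemma exists_chi : ∃ χ : ℂ → ℝ, ContDiff ℝ ∞ χ ∧ HasCompactSupport χ ∧
    (∀ z ∈ tsupport χ, 0 < z.im) ∧ (∀ z, 0 ≤ χ z) ∧
    ∀ z : ℂ, 0 < z.im → ∃ γ : Grp, 0 < χ (mob (γ : SL(2, ℝ)) z) := by
  obtain ⟨K, hK, hcov⟩ := cocompact
  have hK' : IsCompact ((fun τ : ℍ => (τ : ℂ)) '' K) := hK.image UpperHalfPlane.continuous_coe
  have hU : IsOpen {x : ℂ | 0 < x.im} := isOpen_lt continuous_const Complex.continuous_im
  obtain ⟨L, hL, hKL, hLU⟩ := exists_compact_between hK' hU (by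
    rintro _ ⟨τ, -, rfl⟩
    exact τ.im_pos)
  obtain ⟨χ, hsupp, hsm, hrange⟩ := (isOpen_interior (s := L)).exists_contDiff_support_eq (n := ⊤)
  have hts : tsupport χ ⊆ L := by
    rw [tsupport, hsupp]
    exact closure_minimal interior_subset hL.isClosed
  have hnn : ∀ z, 0 ≤ χ z := fun z => (hrange ⟨z, rfl⟩).1
  refine ⟨χ, hsm, HasCompactSupport.of_support_subset_isCompact hL
    (subset_closure.trans hts), fun z hz => hLU (hts hz), hnn, fun z hz => ?_⟩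
  obtain ⟨γ, hγ, hmem⟩ := hcov ⟨z, hz⟩
  refine ⟨⟨γ, hγ⟩, lt_of_le_of_ne (hnn _) (Ne.symm ?_)⟩
  have h1 : mob γ z ∈ Function.support χ := by
    rw [hsupp]
    apply hKL
    exact ⟨_, hmem, (mob_coe γ ⟨z, hz⟩).symm⟩
  exact h1

theorem exists_psi : ∃ ψ : ℂ → ℝ, ContDiff ℝ ∞ ψ ∧ HasCompactSupport ψ ∧
    (∀ z ∈ tsupport ψ, 0 < z.im) ∧ (∀ z, 0 ≤ ψ z) ∧
    ∀ z : ℂ, 0 < z.im → ∑ᶠ γ : Grp, ψ (mob (γ : SL(2, ℝ)) z) = 1 := by
  obtain ⟨χ, hsm, hcs, hpos, hnn, hcov⟩ := exists_chi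
  set S : ℂ → ℝ := fun z => ∑ᶠ γ : Grp, χ (mob (γ : SL(2, ℝ)) z) with hS
  have hlf : ∀ z : ℂ, 0 < z.im → ∃ N ∈ 𝓝 z, (∀ x ∈ N, 0 < x.im) ∧ ∃ T : Finset Grp,
      ∀ x ∈ N, ∀ γ : Grp, χ (mob (γ : SL(2, ℝ)) x) ≠ 0 → γ ∈ T := by
    intro z hz
    obtain ⟨N, hN, hNU, hfin⟩ := locally_finite hcs hpos hz
    refine ⟨N, hN, hNU, hfin.toFinset, fun x hx γ hne => ?_⟩
    rw [Set.Finite.mem_toFinset]
    exact ⟨x, hx, subset_closure hne⟩
  have hfinsum : ∀ z : ℂ, 0 < z.im →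
      (Function.support fun γ : Grp => χ (mob (γ : SL(2, ℝ)) z)).Finite := by
    intro z hz
    obtain ⟨N, hN, hNU, T, hT⟩ := hlf z hz
    exact T.finite_toSet.subset fun γ hγ => hT z (mem_of_mem_nhds hN) γ hγ
  have hSpos : ∀ z : ℂ, 0 < z.im → 0 < S z := by
    intro z hz
    obtain ⟨γ, hγ⟩ := hcov z hz
    exact finsum_pos (fun _ => hnn _) ⟨γ, hγ⟩ (hfinsum z hz)
  have hSsm : ∀ z : ℂ, 0 < z.im → ContDiffAt ℝ ∞ S z := by
    intro z hz
    obtain ⟨N, hN, hNU, T, hT⟩ := hlf z hz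
    have heq : S =ᶠ[𝓝 z] fun x => ∑ γ ∈ T, χ (mob (γ : SL(2, ℝ)) x) := by
      filter_upwards [hN] with x hx
      exact finsum_eq_sum_of_support_subset _ fun γ hγ => hT x hx γ hγ
    refine ContDiffAt.congr_of_eventuallyEq ?_ heq
    exact ContDiffAt.sum fun γ _ => (hsm.contDiffAt).comp z (contDiffAt_mob _ hz)
  have hSinv : ∀ (g : Grp) (z : ℂ), 0 < z.im → S (mob (g : SL(2, ℝ)) z) = S z := by
    intro g z hz
    simp only [hS]
    rw [← finsum_comp_equiv (Equiv.mulRight g) (f := fun γ : Grp => χ (mob (γ : SL(2, ℝ)) z))]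
    refine finsum_congr fun γ => ?_
    rw [Equiv.coe_mulRight, Subgroup.coe_mul, mob_mul _ _ hz]
  refine ⟨fun z => χ z / S z, ?_, ?_, ?_, ?_, ?_⟩
  · rw [contDiff_iff_contDiffAt]
    intro z
    by_cases hz : z ∈ tsupport χ
    · exact hsm.contDiffAt.div (hSsm z (hpos z hz)) (hSpos z (hpos z hz)).ne'
    · have : (fun z => χ z / S z) =ᶠ[𝓝 z] fun _ => 0 := by
        have h1 : χ =ᶠ[𝓝 z] 0 := notMem_tsupport_iff_eventuallyEq.1 hz
        filter_upwards [h1] with x hx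
        rw [hx]
        simp
      exact contDiffAt_const.congr_of_eventuallyEq this
  · have : (fun z => χ z / S z) = fun z => χ z * (S z)⁻¹ := by
      ext z; rw [div_eq_mul_inv]
    rw [this]
    exact hcs.mul_right
  · intro z hz
    apply hpos
    refine closure_mono ?_ hz
    intro x hx hx0
    exact hx (by simp [hx0])
  · intro z
    by_cases hz : 0 < z.im
    · exact div_nonneg (hnn z) (hSpos z hz).le
    · have : χ z = 0 := by
        by_contra h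
        exact hz (hpos z (subset_closure h))
      simp [this]
  · intro z hz
    have : ∀ γ : Grp, χ (mob (γ : SL(2, ℝ)) z) / S (mob (γ : SL(2, ℝ)) z) =
        χ (mob (γ : SL(2, ℝ)) z) * (S z)⁻¹ := fun γ => by rw [hSinv γ z hz, div_eq_mul_inv]
    simp only [this]
    rw [← finsum_mul]
    exact mul_inv_cancel₀ (hSpos z hz).ne'

/-- The weight. -/
noncomputable def psi : ℂ → ℝ := exists_psi.choose

lemma psi_contDiff : ContDiff ℝ ∞ psi := exists_psi.choose_spec.1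

lemma psi_hasCompactSupport : HasCompactSupport psi := exists_psi.choose_spec.2.1

lemma psi_im_pos : ∀ z ∈ tsupport psi, 0 < z.im := exists_psi.choose_spec.2.2.1

lemma psi_nonneg : ∀ z, 0 ≤ psi z := exists_psi.choose_spec.2.2.2.1

lemma psi_sum (z : ℂ) (hz : 0 < z.im) : ∑ᶠ γ : Grp, psi (mob (γ : SL(2, ℝ)) z) = 1 :=
  exists_psi.choose_spec.2.2.2.2 z hz

end Pool.Agent.Hhelper97.Gam
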