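import Pool.Agent.Hhelper97.Gam.Wirt

/-!
# Stokes with the weight `ψ`
-/

set_option autoImplicit false

open Matrix MeasureTheory UpperHalfPlane Topology
open scoped MatrixGroups ContDiff ComplexConjugate

namespace Pool.Agent.Hhelper97.Gam

/-- A weight on the half plane. -/
structure IsWt (ψ : ℂ → ℝ) : Prop where
  smooth : ContDiff ℝ ∞ ψ
  cpt : HasCompactSupport ψ
  supp : ∀ z ∈ tsupport ψ, 0 < z.im
  sum : ∀ z : ℂ, 0 < z.im → ∑ᶠ γ : Grp, ψ (mob (γ : SL(2, ℝ)) z) = 1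

lemma isWt_psi : IsWt psi := ⟨psi_contDiff, psi_hasCompactSupport, psi_im_pos, psi_sum⟩

variable {ψ : ℂ → ℝ}

/-- `ψ(p₀)` as a complex valued function. -/
noncomputable def psiC (ψ : ℂ → ℝ) (p : V) : ℂ := (ψ (p 0) : ℂ)

lemma contDiff_psiC (hψ : IsWt ψ) : ContDiff ℝ ∞ (psiC ψ) := by
  have h1 : ContDiff ℝ ∞ fun p : V => ψ (p 0) := hψ.smooth.comp (contDiff_apply ℝ ℂ 0)
  exact Complex.ofRealCLM.contDiff.comp h1

lemma differentiable_psiC (hψ : IsWt ψ) : Differentiable ℝ (psiC ψ) :=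
  (contDiff_psiC hψ).differentiable (by simp)

/-- `∂ψ/∂z`. -/
noncomputable def dpsi (ψ : ℂ → ℝ) (p : V) : ℂ := wd 0 (psiC ψ) p

lemma continuous_wd {f : V → ℂ} (hf : ContDiff ℝ 1 f) (j : Fin 3) : Continuous (wd j f) := by
  have h : ∀ v : V, Continuous fun p => fderiv ℝ f p v := fun v =>
    (hf.continuous_fderiv one_ne_zero).clm_apply continuous_const
  exact continuous_const.mul ((h _).sub (continuous_const.mul (h _)))

lemma continuous_dpsi (hψ : IsWt ψ) : Continuous (dpsi ψ) :=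
  continuous_wd ((contDiff_psiC hψ).of_le (by exact_mod_cast le_top)) 0

lemma wd_psiC_ne (hψ : IsWt ψ) (k : Fin 3) (hk : k ≠ 0) (p : V) : wd k (psiC ψ) p = 0 := by
  have h : ∀ w : ℂ, fderiv ℝ (psiC ψ) p (Pi.single k w) = 0 := by
    intro w
    have h1 : HasFDerivAt (psiC ψ) (fderiv ℝ (psiC ψ) p) p := (differentiable_psiC hψ p).hasFDerivAt
    have h2 := h1.comp_hasDerivAt_of_eq (0 : ℝ) (f := fun t : ℝ => p + t • (Pi.single k w : V))
      (f' := Pi.single k w)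
      (by simpa using ((hasDerivAt_id (0 : ℝ)).smul_const (Pi.single k w : V)).const_add p)
      (by simp)
    have h3 : (psiC ψ ∘ fun t : ℝ => p + t • (Pi.single k w : V)) = fun _ => psiC ψ p := by
      ext t
      simp [psiC, hk.symm]
    rw [h3] at h2
    exact h2.unique (hasDerivAt_const _ _)
  rw [wd, h, h]
  simp

lemma dpsi_ne_zero {p : V} (h : dpsi ψ p ≠ 0) : p 0 ∈ tsupport ψ := by
  by_contra h0
  apply h
  have h1 : ψ =ᶠ[𝓝 (p 0)] 0 := notMem_tsupport_iff_eventuallyEq.1 h0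
  have h2 : psiC ψ =ᶠ[𝓝 p] fun _ => 0 := by
    have : Filter.Tendsto (fun q : V => q 0) (𝓝 p) (𝓝 (p 0)) := (continuous_apply 0).continuousAt
    filter_upwards [this.eventually h1] with q hq
    simp [psiC, hq]
  rw [dpsi, wd_congr h2]
  simp [wd]

lemma finite_T (hψ : IsWt ψ) :
    {γ : Grp | ∃ x ∈ tsupport ψ, mob (γ : SL(2, ℝ)) x ∈ tsupport ψ}.Finite := by
  have hK : IsCompact (tsupport ψ) := hψ.cpt
  have hemb : IsOpenEmbedding (fun τ : ℍ => (τ : ℂ)) := UpperHalfPlane.isOpenEmbedding_coe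
  have hK' : IsCompact ((fun τ : ℍ => (τ : ℂ)) ⁻¹' tsupport ψ) :=
    hemb.isInducing.isCompact_preimage' hK (fun x hx => ⟨⟨x, hψ.supp x hx⟩, rfl⟩)
  refine (ProperlyDiscontinuousSMul.finite_disjoint_inter_image (Γ := Grp) hK' hK').subset ?_
  rintro γ ⟨x, hxN, hxK⟩
  have hx := hψ.supp x hxN
  have hmem : ((γ • (⟨x, hx⟩ : ℍ) : ℍ) : ℂ) ∈ tsupport ψ := by
    show (((γ : SL(2, ℝ)) • (⟨x, hx⟩ : ℍ) : ℍ) : ℂ) ∈ tsupport ψ
    rw [← mob_coe]
    exact hxK
  exact ⟨γ • (⟨x, hx⟩ : ℍ), Set.mem_image_of_mem _ (show (⟨x, hx⟩ : ℍ) ∈ _ from hxN), hmem⟩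

/-- The relevant group elements. -/
noncomputable def TT (hψ : IsWt ψ) : Finset Grp := (finite_T hψ).toFinset

lemma mem_TT (hψ : IsWt ψ) {γ : Grp} : γ ∈ TT hψ ↔
    ∃ x ∈ tsupport ψ, mob (γ : SL(2, ℝ)) x ∈ tsupport ψ := by
  rw [TT, Set.Finite.mem_toFinset]
  rfl

lemma mob_inv_mob (g : SL(2, ℝ)) {z : ℂ} (hz : 0 < z.im) : mob g⁻¹ (mob g z) = z := by
  rw [← mob_mul _ _ hz, inv_mul_cancel, mob_one]

lemma inv_mem_TT (hψ : IsWt ψ) {γ : Grp} (h : γ ∈ TT hψ) : γ⁻¹ ∈ TT hψ := by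
  rw [mem_TT] at h ⊢
  obtain ⟨x, hx, hx'⟩ := h
  refine ⟨_, hx', ?_⟩
  rw [Subgroup.coe_inv, mob_inv_mob _ (hψ.supp x hx)]
  exact hx

lemma sum_TT (hψ : IsWt ψ) {z : ℂ} (hz : z ∈ tsupport ψ) :
    ∑ γ ∈ TT hψ, ψ (mob (γ : SL(2, ℝ)) z) = 1 := by
  rw [← hψ.sum z (hψ.supp z hz)]
  symm
  apply finsum_eq_sum_of_support_subset
  intro γ hγ
  rw [Finset.mem_coe, mem_TT]
  exact ⟨z, hz, subset_closure hγ⟩

lemma sum_TT_psiC (hψ : IsWt ψ) {p : V} (hp : p 0 ∈ tsupport ψ) :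
    ∑ γ ∈ TT hψ, psiC ψ (act (γ : SL(2, ℝ)) p) = 1 := by
  have := sum_TT hψ hp
  simp only [psiC, act, Matrix.cons_val_zero]
  exact_mod_cast this

lemma jac_apply_zero (g : SL(2, ℝ)) (p : V) : jac g p 0 0 = (J g (p 0) ^ 2)⁻¹ := by
  simp [jac]

lemma dact_single (g : SL(2, ℝ)) (p : V) (j k : Fin 3) :
    dact g p (Pi.single j 1) k = jac g p k j := by
  simp [dact, Matrix.toLin'_apply]

lemma wd_psiC_act (hψ : IsWt ψ) (g : SL(2, ℝ)) {p : V} (hp : p ∈ U) :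
    wd 0 (fun q => psiC ψ (act g q)) p = dpsi ψ (act g p) * (J g (p 0) ^ 2)⁻¹ := by
  rw [wd_comp (differentiable_psiC hψ _) (hasFDerivAt_act g hp), Fin.sum_univ_three,
    wd_psiC_ne hψ 1 (by decide), wd_psiC_ne hψ 2 (by decide), dact_single, jac_apply_zero, dpsi]
  ring

lemma wd_sum {ι : Type*} (T : Finset ι) (f : ι → V → ℂ) {p : V}
    (hf : ∀ i ∈ T, DifferentiableAt ℝ (f i) p) (j : Fin 3) :
    wd j (fun q => ∑ i ∈ T, f i q) p = ∑ i ∈ T, wd j (f i) p := by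
  have h : fderiv ℝ (fun q => ∑ i ∈ T, f i q) p = ∑ i ∈ T, fderiv ℝ (f i) p :=
    fderiv_fun_sum hf
  simp only [wd, h, _root_.sum_apply]
  rw [Finset.mul_sum, ← Finset.sum_sub_distrib, Finset.mul_sum]

lemma claimA (hψ : IsWt ψ) {p : V} (hp : p ∈ U) (hψ0 : ψ (p 0) ≠ 0) :
    ∑ γ ∈ TT hψ, dpsi ψ (act (γ : SL(2, ℝ)) p) * (J (γ : SL(2, ℝ)) (p 0) ^ 2)⁻¹ = 0 := by
  have h1 : (fun q => ∑ γ ∈ TT hψ, psiC ψ (act (γ : SL(2, ℝ)) q)) =ᶠ[𝓝 p] fun _ => 1 := by
    have hcont : Continuous fun q : V => ψ (q 0) :=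
      hψ.smooth.continuous.comp (continuous_apply 0)
    filter_upwards [hcont.continuousAt.eventually_ne hψ0] with q hq
    exact sum_TT_psiC hψ (subset_closure hq)
  have h2 : wd 0 (fun q => ∑ γ ∈ TT hψ, psiC ψ (act (γ : SL(2, ℝ)) q)) p = 0 := by
    rw [wd_congr h1]
    simp [wd]
  rw [wd_sum] at h2
  · rw [← h2]
    exact Finset.sum_congr rfl fun γ _ => (wd_psiC_act hψ γ hp).symm
  · intro γ _
    exact (differentiable_psiC hψ _).comp p ((hasFDerivAt_act γ hp).restrictScalars ℝ).differentiableAt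

/-- Integrability of continuous functions with bounded support. -/
lemma integrableOn_U (hψ : IsWt ψ) {f : V → ℂ} (hf : ContinuousOn f U) {B : ℝ}
    (hB : ∀ p ∈ U, f p ≠ 0 → p 0 ∈ tsupport ψ ∧ ‖p‖ ≤ B) : IntegrableOn f U := by
  set KB : Set V := {p | p 0 ∈ tsupport ψ ∧ ‖p‖ ≤ B}
  have hKB : IsCompact KB := by
    have h1 : IsClosed KB := by
      apply IsClosed.inter
      · exact (isClosed_tsupport ψ).preimage (show Continuous fun p : V => p 0 by fun_prop)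
      · exact isClosed_le continuous_norm continuous_const
    refine (isCompact_closedBall (0 : V) B).of_isClosed_subset h1 ?_
    intro p hp
    simpa using hp.2
  have hKU : KB ⊆ U := fun p hp => hψ.supp _ hp.1
  refine IntegrableOn.of_forall_sdiff_eq_zero
    ((hf.mono hKU).integrableOn_compact hKB) isOpen_U.measurableSet ?_
  rintro p ⟨hp, hpK⟩
  by_contra h
  exact hpK (hB p hp h)

/-- The base case of Stokes. -/
theorem base_stokes (hψ : IsWt ψ) {G : V → ℂ} (hG : ContinuousOn G U) {B : ℝ}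
    (hB : ∀ p ∈ U, p 0 ∈ tsupport ψ → G p ≠ 0 → ‖p‖ ≤ B)
    (hE : ∀ γ ∈ Grp, ∀ p ∈ U,
      ((‖J γ (p 0)‖⁻¹ ^ 8 : ℝ) : ℂ) * G (act γ p) = (J γ (p 0) ^ 2)⁻¹ * G p) :
    ∫ p in U, dpsi ψ p * G p = 0 := by
  have hJc : ∀ g : SL(2, ℝ), ContinuousOn (fun p : V => (J g (p 0) ^ 2)⁻¹) U := by
    intro g
    apply ContinuousOn.inv₀
    · unfold J; fun_prop
    · intro p hp
      exact pow_ne_zero _ (J_ne_zero g hp)
  have hc1 : ∀ g : SL(2, ℝ), ContinuousOn (fun p => psiC ψ (act g p)) U := fun g =>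
    (contDiff_psiC hψ).continuous.comp_continuousOn (continuousOn_act g)
  have hc2 : ∀ g : SL(2, ℝ), ContinuousOn (fun p => dpsi ψ (act g p)) U := fun g =>
    (continuous_dpsi hψ).comp_continuousOn (continuousOn_act g)
  -- insert the partition of unity
  have e1 : ∫ p in U, dpsi ψ p * G p =
      ∫ p in U, ∑ γ ∈ TT hψ, psiC ψ (act (γ : SL(2, ℝ)) p) * dpsi ψ p * G p := by
    refine setIntegral_congr_fun isOpen_U.measurableSet fun p _ => ?_
    by_cases h : dpsi ψ p = 0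
    · simp [h]
    · rw [← Finset.sum_mul, ← Finset.sum_mul, sum_TT_psiC hψ (dpsi_ne_zero h), one_mul]
  have e2 : ∀ γ ∈ TT hψ, ∫ p in U, psiC ψ (act (γ : SL(2, ℝ)) p) * dpsi ψ p * G p =
      ∫ p in U, psiC ψ p * (dpsi ψ (act ((γ⁻¹ : Grp) : SL(2, ℝ)) p) *
        (J ((γ⁻¹ : Grp) : SL(2, ℝ)) (p 0) ^ 2)⁻¹) * G p := by
    intro γ _
    rw [integral_act ((γ⁻¹ : Grp) : SL(2, ℝ))]
    refine setIntegral_congr_fun isOpen_U.measurableSet fun p hp => ?_
    have h1 : act (γ : SL(2, ℝ)) (act ((γ⁻¹ : Grp) : SL(2, ℝ)) p) = p := by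
      rw [Subgroup.coe_inv, act_act_inv _ hp]
    have h2 := hE _ (γ⁻¹).2 p hp
    rw [h1, Complex.real_smul]
    linear_combination psiC ψ p * dpsi ψ (act ((γ⁻¹ : Grp) : SL(2, ℝ)) p) * h2
  rw [e1, integral_finsetSum, Finset.sum_congr rfl e2]
  · have e3 : ∑ γ ∈ TT hψ, ∫ p in U, psiC ψ p * (dpsi ψ (act ((γ⁻¹ : Grp) : SL(2, ℝ)) p) *
        (J ((γ⁻¹ : Grp) : SL(2, ℝ)) (p 0) ^ 2)⁻¹) * G p =
        ∑ γ ∈ TT hψ, ∫ p in U, psiC ψ p * (dpsi ψ (act (γ : SL(2, ℝ)) p) *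
        (J (γ : SL(2, ℝ)) (p 0) ^ 2)⁻¹) * G p := by
      refine Finset.sum_bij' (fun γ _ => γ⁻¹) (fun γ _ => γ⁻¹) (fun γ h => inv_mem_TT hψ h)
        (fun γ h => inv_mem_TT hψ h) (fun γ _ => inv_inv γ) (fun γ _ => inv_inv γ)
        (fun γ _ => rfl)
    rw [e3, ← integral_finsetSum]
    · have : ∀ p ∈ U, ∑ γ ∈ TT hψ, psiC ψ p * (dpsi ψ (act (γ : SL(2, ℝ)) p) *
        (J (γ : SL(2, ℝ)) (p 0) ^ 2)⁻¹) * G p = 0 := by
        intro p hp
        by_cases h : ψ (p 0) = 0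
        · simp [psiC, h]
        · rw [← Finset.sum_mul, ← Finset.mul_sum, claimA hψ hp h]
          simp
      rw [setIntegral_congr_fun isOpen_U.measurableSet this]
      simp
    · intro γ _
      refine integrableOn_U hψ (B := B) ?_ ?_
      · exact (((contDiff_psiC hψ).continuous.continuousOn).mul ((hc2 _).mul (hJc _))).mul hG
      · intro p hp hne
        have h1 : psiC ψ p ≠ 0 := by
          intro h; simp [h] at hne
        have h2 : G p ≠ 0 := by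
          intro h; simp [h] at hne
        have h3 : p 0 ∈ tsupport ψ := by
          apply subset_closure
          simpa [psiC] using h1
        exact ⟨h3, hB p hp h3 h2⟩
  · intro γ _
    refine integrableOn_U hψ (B := B) ?_ ?_
    · exact ((hc1 _).mul (continuous_dpsi hψ).continuousOn).mul hG
    · intro p hp hne
      have h1 : dpsi ψ p ≠ 0 := by
        intro h; simp [h] at hne
      have h2 : G p ≠ 0 := by
        intro h; simp [h] at hne
      exact ⟨dpsi_ne_zero h1, hB p hp (dpsi_ne_zero h1) h2⟩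

lemma psiC_ne_zero {p : V} (h : psiC ψ p ≠ 0) : p 0 ∈ tsupport ψ := by
  apply subset_closure
  simpa [psiC] using h

lemma isCompact_KB (ψ : ℂ → ℝ) (B : ℝ) : IsCompact {p : V | p 0 ∈ tsupport ψ ∧ ‖p‖ ≤ B} := by
  have h1 : IsClosed {p : V | p 0 ∈ tsupport ψ ∧ ‖p‖ ≤ B} := by
    apply IsClosed.inter
    · exact (isClosed_tsupport ψ).preimage (show Continuous fun p : V => p 0 by fun_prop)
    · exact isClosed_le continuous_norm continuous_const
  refine (isCompact_closedBall (0 : V) B).of_isClosed_subset h1 ?_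
  intro p hp
  simpa using hp.2

lemma psiC_eventually_zero {p : V} (h : p 0 ∉ tsupport ψ) : ∀ᶠ q in 𝓝 p, psiC ψ q = 0 := by
  have h1 : ψ =ᶠ[𝓝 (p 0)] 0 := notMem_tsupport_iff_eventuallyEq.1 h
  have : Filter.Tendsto (fun q : V => q 0) (𝓝 p) (𝓝 (p 0)) := (continuous_apply 0).continuousAt
  filter_upwards [this.eventually h1] with q hq
  simp [psiC, hq]

lemma continuousOn_wd {f : V → ℂ} (hf : ContDiffOn ℝ 1 f U) (j : Fin 3) :
    ContinuousOn (wd j f) U := by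
  have h : ∀ v : V, ContinuousOn (fun p => fderiv ℝ f p v) U := fun v =>
    (hf.continuousOn_fderiv_of_isOpen isOpen_U le_rfl).clm_apply continuousOn_const
  exact continuousOn_const.mul ((h _).sub (continuousOn_const.mul (h _)))

/-- Stokes for vector densities with compact support in the fibre direction. -/
theorem stokes_compact (hψ : IsWt ψ) {Y : Fin 3 → V → ℂ} (hY : ∀ j, ContDiffOn ℝ 1 (Y j) U) {B : ℝ}
    (hB : ∀ j, ∀ p ∈ U, p 0 ∈ tsupport ψ → Y j p ≠ 0 → ‖p‖ ≤ B)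
    (hE : ∀ γ ∈ Grp, ∀ p ∈ U,
      ((‖J γ (p 0)‖⁻¹ ^ 8 : ℝ) : ℂ) * Y 0 (act γ p) = (J γ (p 0) ^ 2)⁻¹ * Y 0 p) :
    ∫ p in U, psiC ψ p * ∑ j, wd j (Y j) p = 0 := by
  have hdY : ∀ j, ∀ p ∈ U, DifferentiableAt ℝ (Y j) p := fun j p hp =>
    ((hY j).differentiableOn one_ne_zero).differentiableAt (isOpen_U.mem_nhds hp)
  set F : Fin 3 → V → ℂ := fun j p => psiC ψ p * Y j p with hF
  have hF0 : ∀ j p, p 0 ∉ tsupport ψ → F j =ᶠ[𝓝 p] fun _ => 0 := by
    intro j p hp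
    filter_upwards [psiC_eventually_zero hp] with q hq
    simp [hF, hq]
  have hFc : ∀ j, ContDiff ℝ 1 (F j) := by
    intro j
    rw [contDiff_iff_contDiffAt]
    intro p
    by_cases hp : p 0 ∈ tsupport ψ
    · have hpU : p ∈ U := hψ.supp _ hp
      exact (((contDiff_psiC hψ).of_le (by exact_mod_cast le_top)).contDiffAt).mul
        ((hY j).contDiffAt (isOpen_U.mem_nhds hpU))
    · exact contDiffAt_const.congr_of_eventuallyEq (hF0 j p hp)
  have hFs : ∀ j, HasCompactSupport (F j) := by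
    intro j
    refine HasCompactSupport.of_support_subset_isCompact (isCompact_KB ψ B) ?_
    intro p hp
    have h1 : psiC ψ p ≠ 0 := by
      intro h; exact hp (by simp [hF, h])
    have h2 : Y j p ≠ 0 := by
      intro h; exact hp (by simp [hF, h])
    have h3 := psiC_ne_zero h1
    exact ⟨h3, hB j p (hψ.supp _ h3) h3 h2⟩
  have h0 : ∀ j, ∫ p in U, wd j (F j) p = 0 := by
    intro j
    rw [← integral_wd_eq_zero (hFc j) (hFs j) j]
    apply setIntegral_eq_integral_of_forall_compl_eq_zero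
    intro p hp
    have : p 0 ∉ tsupport ψ := fun h => hp (hψ.supp _ h)
    rw [wd_congr (hF0 j p this)]
    simp [wd]
  have hbase : ∫ p in U, dpsi ψ p * Y 0 p = 0 := base_stokes hψ (hY 0).continuousOn (hB 0) hE
  have hint1 : IntegrableOn (fun p => dpsi ψ p * Y 0 p) U := by
    refine integrableOn_U hψ (B := B) ?_ ?_
    · exact (continuous_dpsi hψ).continuousOn.mul (hY 0).continuousOn
    · intro p hp hne
      have h1 : dpsi ψ p ≠ 0 := by
        intro h; simp [h] at hne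
      have h2 : Y 0 p ≠ 0 := by
        intro h; simp [h] at hne
      exact ⟨dpsi_ne_zero h1, hB 0 p hp (dpsi_ne_zero h1) h2⟩
  have hint2 : ∀ j, IntegrableOn (fun p => wd j (F j) p) U := by
    intro j
    have hv : ∀ v : V, Integrable fun p => fderiv ℝ (F j) p v := fun v =>
      (((hFc j).continuous_fderiv one_ne_zero).clm_apply
        continuous_const).integrable_of_hasCompactSupport ((hFs j).fderiv_apply (𝕜 := ℝ) v)
    exact (((hv _).sub ((hv _).const_mul _)).const_mul _).integrableOn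
  have key : ∀ p ∈ U, psiC ψ p * ∑ j, wd j (Y j) p =
      ∑ j, wd j (F j) p - dpsi ψ p * Y 0 p := by
    intro p hp
    have : ∀ j, wd j (F j) p = wd j (psiC ψ) p * Y j p + psiC ψ p * wd j (Y j) p := fun j =>
      wd_mul (differentiable_psiC hψ p) (hdY j p hp) j
    simp only [this, Fin.sum_univ_three]
    rw [wd_psiC_ne hψ 1 (by decide), wd_psiC_ne hψ 2 (by decide), dpsi]
    ring
  rw [setIntegral_congr_fun isOpen_U.measurableSet key, integral_sub, integral_finsetSum, hbase]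
  · simp [h0]
  · exact fun j _ => hint2 j
  · exact integrable_finsetSum _ fun j _ => hint2 j
  · exact hint1

end Pool.Agent.Hhelper97.Gam
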