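import Pool.Agent.Hhelper97.Gam.Act

/-!
# Wirtinger derivatives
-/

set_option autoImplicit false

open Matrix MeasureTheory UpperHalfPlane Topology
open scoped MatrixGroups ContDiff ComplexConjugate

namespace Pool.Agent.Hhelper97.Gam

/-- `∂/∂z_j`. -/
noncomputable def wd (j : Fin 3) (f : V → ℂ) (p : V) : ℂ :=
  (1 / 2) * (fderiv ℝ f p (Pi.single j 1) - Complex.I * fderiv ℝ f p (Pi.single j Complex.I))

/-- `∂/∂\bar z_j`. -/
noncomputable def wdb (j : Fin 3) (f : V → ℂ) (p : V) : ℂ :=
  (1 / 2) * (fderiv ℝ f p (Pi.single j 1) + Complex.I * fderiv ℝ f p (Pi.single j Complex.I))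

/-- Decomposition of a real linear map. -/
lemma single_smul (A : V →L[ℝ] ℂ) (j : Fin 3) (w : ℂ) :
    A (Pi.single j w) =
      (1 / 2) * (A (Pi.single j 1) - Complex.I * A (Pi.single j Complex.I)) * w +
      (1 / 2) * (A (Pi.single j 1) + Complex.I * A (Pi.single j Complex.I)) * conj w := by
  have h : (Pi.single j w : V) = w.re • (Pi.single j 1 : V) + w.im • (Pi.single j Complex.I : V) := by
    ext i
    by_cases hi : i = j
    · subst hi
      simp
    · simp [hi]
  rw [h, map_add, map_smul, map_smul]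
  have hw : w = w.re + w.im * Complex.I := (Complex.re_add_im w).symm
  have hw' : conj w = w.re - w.im * Complex.I := by
    apply Complex.ext <;> simp
  rw [hw']
  conv_rhs => rw [hw]
  simp only [Complex.real_smul, Complex.add_re, Complex.ofReal_re, Complex.mul_re, Complex.I_re,
    mul_zero, Complex.ofReal_im, Complex.I_im, mul_one, sub_self, add_zero, Complex.add_im,
    Complex.mul_im, zero_add]
  linear_combination ((w.im : ℂ) * A (Pi.single j Complex.I)) * Complex.I_mul_I

lemma eq_wd (f : V → ℂ) (p v : V) :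
    fderiv ℝ f p v = ∑ j, (wd j f p * v j + wdb j f p * conj (v j)) := by
  have hv : v = ∑ j, Pi.single j (v j) := by
    ext i
    simp [Finset.sum_apply]
  conv_lhs => rw [hv, map_sum]
  refine Finset.sum_congr rfl fun j _ => ?_
  rw [single_smul]
  rfl

/-- Chain rule for a holomorphic map. -/
lemma wd_comp {F : V → ℂ} {f : V → V} {A : V →L[ℂ] V} {p : V} (hF : DifferentiableAt ℝ F (f p))
    (hf : HasFDerivAt f A p) (j : Fin 3) :
    wd j (fun q => F (f q)) p = ∑ k, wd k F (f p) * A (Pi.single j 1) k := by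
  have h : fderiv ℝ (fun q => F (f q)) p = (fderiv ℝ F (f p)).comp (A.restrictScalars ℝ) :=
    (hF.hasFDerivAt.comp p (hf.restrictScalars ℝ)).fderiv
  have hI : A (Pi.single j Complex.I) = Complex.I • A (Pi.single j 1) := by
    rw [← map_smul]
    congr 1
    ext i
    by_cases hi : i = j
    · subst hi; simp
    · simp [hi]
  rw [wd, h]
  simp only [ContinuousLinearMap.comp_apply, ContinuousLinearMap.coe_restrictScalars']
  rw [eq_wd F, eq_wd F, hI, Finset.mul_sum, ← Finset.sum_sub_distrib, Finset.mul_sum]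
  refine Finset.sum_congr rfl fun k _ => ?_
  simp only [Pi.smul_apply, smul_eq_mul, map_mul, Complex.conj_I]
  linear_combination ((1 / 2) * wdb k F (f p) * conj (A (Pi.single j 1) k) -
    (1 / 2) * wd k F (f p) * (A (Pi.single j 1) k)) * Complex.I_mul_I

lemma wdb_comp {F : V → ℂ} {f : V → V} {A : V →L[ℂ] V} {p : V} (hF : DifferentiableAt ℝ F (f p))
    (hf : HasFDerivAt f A p) (j : Fin 3) :
    wdb j (fun q => F (f q)) p = ∑ k, wdb k F (f p) * conj (A (Pi.single j 1) k) := by
  have h : fderiv ℝ (fun q => F (f q)) p = (fderiv ℝ F (f p)).comp (A.restrictScalars ℝ) :=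
    (hF.hasFDerivAt.comp p (hf.restrictScalars ℝ)).fderiv
  have hI : A (Pi.single j Complex.I) = Complex.I • A (Pi.single j 1) := by
    rw [← map_smul]
    congr 1
    ext i
    by_cases hi : i = j
    · subst hi; simp
    · simp [hi]
  rw [wdb, h]
  simp only [ContinuousLinearMap.comp_apply, ContinuousLinearMap.coe_restrictScalars']
  rw [eq_wd F, eq_wd F, hI, Finset.mul_sum, ← Finset.sum_add_distrib, Finset.mul_sum]
  refine Finset.sum_congr rfl fun k _ => ?_
  simp only [Pi.smul_apply, smul_eq_mul, map_mul, Complex.conj_I]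
  linear_combination (-(1 / 2) * wdb k F (f p) * conj (A (Pi.single j 1) k) +
    (1 / 2) * wd k F (f p) * (A (Pi.single j 1) k)) * Complex.I_mul_I

lemma wd_mul {f g : V → ℂ} {p : V} (hf : DifferentiableAt ℝ f p) (hg : DifferentiableAt ℝ g p)
    (j : Fin 3) : wd j (fun q => f q * g q) p = wd j f p * g p + f p * wd j g p := by
  have h : fderiv ℝ (fun q => f q * g q) p = f p • fderiv ℝ g p + g p • fderiv ℝ f p :=
    fderiv_fun_mul hf hg
  rw [wd, h, wd, wd]
  simp only [_root_.add_apply, _root_.smul_apply, smul_eq_mul]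
  ring

lemma wdb_mul {f g : V → ℂ} {p : V} (hf : DifferentiableAt ℝ f p) (hg : DifferentiableAt ℝ g p)
    (j : Fin 3) : wdb j (fun q => f q * g q) p = wdb j f p * g p + f p * wdb j g p := by
  have h : fderiv ℝ (fun q => f q * g q) p = f p • fderiv ℝ g p + g p • fderiv ℝ f p :=
    fderiv_fun_mul hf hg
  rw [wdb, h, wdb, wdb]
  simp only [_root_.add_apply, _root_.smul_apply, smul_eq_mul]
  ring

lemma wd_add {f g : V → ℂ} {p : V} (hf : DifferentiableAt ℝ f p) (hg : DifferentiableAt ℝ g p)
    (j : Fin 3) : wd j (fun q => f q + g q) p = wd j f p + wd j g p := by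
  have h : fderiv ℝ (fun q => f q + g q) p = fderiv ℝ f p + fderiv ℝ g p := fderiv_fun_add hf hg
  rw [wd, h, wd, wd]
  simp only [_root_.add_apply]
  ring

lemma wdb_add {f g : V → ℂ} {p : V} (hf : DifferentiableAt ℝ f p) (hg : DifferentiableAt ℝ g p)
    (j : Fin 3) : wdb j (fun q => f q + g q) p = wdb j f p + wdb j g p := by
  have h : fderiv ℝ (fun q => f q + g q) p = fderiv ℝ f p + fderiv ℝ g p := fderiv_fun_add hf hg
  rw [wdb, h, wdb, wdb]
  simp only [_root_.add_apply]
  ring

lemma wd_congr {f g : V → ℂ} {p : V} (h : f =ᶠ[𝓝 p] g) (j : Fin 3) : wd j f p = wd j g p := by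
  rw [wd, h.fderiv_eq, wd]

lemma wdb_congr {f g : V → ℂ} {p : V} (h : f =ᶠ[𝓝 p] g) (j : Fin 3) : wdb j f p = wdb j g p := by
  rw [wdb, h.fderiv_eq, wdb]

lemma wd_conj {f : V → ℂ} {p : V} (hf : DifferentiableAt ℝ f p) (j : Fin 3) :
    wd j (fun q => conj (f q)) p = conj (wdb j f p) := by
  have h : fderiv ℝ (fun q => conj (f q)) p =
      (Complex.conjCLE : ℂ →L[ℝ] ℂ).comp (fderiv ℝ f p) :=
    ((Complex.conjCLE : ℂ →L[ℝ] ℂ).hasFDerivAt.comp p hf.hasFDerivAt).fderiv
  have h2 : conj (1 / 2 : ℂ) = 1 / 2 := by simp [map_ofNat]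
  rw [wd, h, wdb, map_mul, h2]
  simp
  ring

lemma wdb_conj {f : V → ℂ} {p : V} (hf : DifferentiableAt ℝ f p) (j : Fin 3) :
    wdb j (fun q => conj (f q)) p = conj (wd j f p) := by
  have h : fderiv ℝ (fun q => conj (f q)) p =
      (Complex.conjCLE : ℂ →L[ℝ] ℂ).comp (fderiv ℝ f p) :=
    ((Complex.conjCLE : ℂ →L[ℝ] ℂ).hasFDerivAt.comp p hf.hasFDerivAt).fderiv
  have h2 : conj (1 / 2 : ℂ) = 1 / 2 := by simp [map_ofNat]
  rw [wdb, h, wd, map_mul, h2]
  simp

/-- Stokes for compactly supported functions. -/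
lemma integral_fderiv_eq_zero {F : V → ℂ} (hF : ContDiff ℝ 1 F) (hc : HasCompactSupport F)
    (v : V) : ∫ p, fderiv ℝ F p v = 0 := by
  have hcont : Continuous fun p => fderiv ℝ F p v :=
    (hF.continuous_fderiv one_ne_zero).clm_apply continuous_const
  have hcs : HasCompactSupport fun p => fderiv ℝ F p v := hc.fderiv_apply (𝕜 := ℝ) v
  have h := integral_mul_fderiv_eq_neg_fderiv_mul_of_integrable (μ := (volume : Measure V))
    (f := fun _ : V => (1 : ℂ)) (g := F) (v := v) (by simp)
    (by simpa using hcont.integrable_of_hasCompactSupport hcs)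
    (by simpa using hF.continuous.integrable_of_hasCompactSupport hc)
    (fun _ _ => differentiableAt_const _) (fun x _ => (hF.differentiable one_ne_zero) x)
  simpa using h

lemma integral_wd_eq_zero {F : V → ℂ} (hF : ContDiff ℝ 1 F) (hc : HasCompactSupport F)
    (j : Fin 3) : ∫ p, wd j F p = 0 := by
  have hi : ∀ v : V, Integrable fun p => fderiv ℝ F p v := fun v =>
    ((hF.continuous_fderiv one_ne_zero).clm_apply continuous_const).integrable_of_hasCompactSupport
      (hc.fderiv_apply (𝕜 := ℝ) v)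
  simp only [wd]
  rw [integral_const_mul, integral_sub (hi _) ((hi _).const_mul _), integral_const_mul,
    integral_fderiv_eq_zero hF hc, integral_fderiv_eq_zero hF hc]
  simp

end Pool.Agent.Hhelper97.Gam
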